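import Pool.Agent.H726.AL.Ptw
import Pool.Agent.R54.AS.Flip
import Pool.Agent.R54.AS.Fin
import Pool.Agent.H981R2.Plain

/-!
# Centre of mass of self-avoiding walks: corner flips
-/

set_option autoImplicit false
set_option linter.unusedVariables false

namespace H726.AL.CM

open Finset Pool.Agent.H976R2 Pool.Agent.H976R2.Lip Pool.Agent.H924P Pool.Agent.H739K
open Pool.Agent.R54.AS
open scoped Classical

noncomputable section

/-- change of the x-coordinate at the corner -/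
def dl (w : List Dir) (i : ℕ) : ℤ := dx (lt w (i + 1)) - dx (lt w i)

/-- sum of the x-coordinates -/
def cm (w : List Dir) : ℤ := ∑ j ∈ range (w.length + 1), (PP w j).1

theorem hflip : S_flip := Pool.Agent.R54.AS.flip

theorem fc_lt {w : List Dir} {i : ℕ} (hi : i ∈ fc w) : i + 1 < w.length := (mem_filter.1 hi).2.1

theorem dl_val {w : List Dir} {i : ℕ} (hi : i ∈ fc w) : dl w i = 1 ∨ dl w i = -1 := by
  have h := (mem_filter.1 hi).2.2.1
  unfold dl
  revert h
  generalize lt w i = d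
  generalize lt w (i + 1) = e
  cases d <;> cases e <;> simp [perp, dx, dy]

theorem dl_sw {w : List Dir} {i : ℕ} (hi : i ∈ fc w) : dl (sw w i) i = - dl w i := by
  have h := fc_lt hi
  unfold dl
  rw [Pool.Agent.R715.ASFlip.lt_sw_0 w i h, Pool.Agent.R715.ASFlip.lt_sw_1 w i h]
  ring

theorem cm_sw {w : List Dir} (hs : Saw w) {i : ℕ} (hi : i ∈ fc w) :
    cm (sw w i) = cm w + dl w i := by
  have h := fc_lt hi
  obtain ⟨hlen, _, _, _, _, hP, _⟩ := hflip w hs i hi
  unfold cm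
  rw [hlen]
  have hmem : i + 1 ∈ range (w.length + 1) := by rw [mem_range]; omega
  rw [← Finset.add_sum_erase _ _ hmem, ← Finset.add_sum_erase (range (w.length + 1)) (fun j => (PP w j).1) hmem]
  have h1 : ∑ j ∈ (range (w.length + 1)).erase (i + 1), (PP (sw w i) j).1 =
      ∑ j ∈ (range (w.length + 1)).erase (i + 1), (PP w j).1 := by
    refine Finset.sum_congr rfl fun j hj => ?_
    rw [hP j (Finset.ne_of_mem_erase hj)]
  rw [h1, Pool.Agent.R715.ASFlip.PP_sw_1 w i h, PP_succ w i (by omega)]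
  unfold fv dl dv
  simp only [Prod.fst_add]
  ring

theorem dl_far {w : List Dir} {i j : ℕ} (hi : i ∈ fc w) (hj : j ∈ fc w) (hn : j ∉ nr w i) :
    dl (sw w i) j = dl w j := by
  have h := fc_lt hi
  have h1 : ¬ (i ≤ j + 1 ∧ j ≤ i + 1) := by
    intro h2
    apply hn
    unfold nr
    rw [mem_filter]
    exact ⟨hj, Or.inl h2⟩
  unfold dl
  rcases Nat.lt_or_ge (j + 1) i with h2 | h2
  · rw [Pool.Agent.R715.ASFlip.lt_sw_lt w i j h (by omega),
      Pool.Agent.R715.ASFlip.lt_sw_lt w i (j + 1) h h2]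
  · have h3 : i + 1 < j := by
      by_contra hcon
      exact h1 ⟨h2, by omega⟩
    rw [Pool.Agent.R715.ASFlip.lt_sw_gt w i j h h3,
      Pool.Agent.R715.ASFlip.lt_sw_gt w i (j + 1) h (by omega)]

/-- corners of a given sign -/
def cr (z : ℤ) (w : List Dir) : Finset ℕ := (fc w).filter (fun i => dl w i = z)

theorem card_far {w : List Dir} (hs : Saw w) {i : ℕ} (hi : i ∈ fc w) (z : ℤ) :
    (cr z w).card ≤ (cr z (sw w i)).card + 7 := by
  obtain ⟨_, _, _, _, _, _, _, _, h9, h10⟩ := hflip w hs i hi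
  have h1 : cr z w ⊆ cr z (sw w i) ∪ nr w i := by
    intro j hj
    have hj' := mem_filter.1 hj
    rw [mem_union]
    by_cases h : j ∈ nr w i
    · exact Or.inr h
    · refine Or.inl (mem_filter.2 ⟨(h10 j hj'.1 h).1, ?_⟩)
      rw [dl_far hi hj'.1 h]
      exact hj'.2
  have h2 := Finset.card_le_card h1
  have h3 := Finset.card_union_le (cr z (sw w i)) (nr w i)
  omega

/-- walks with `n` steps and end point in `T` -/
def XT (n : ℕ) (T : Set (ℤ × ℤ)) : Finset (List Dir) := (SW n).filter (fun w => PP w n ∈ T)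

theorem mem_XT {n : ℕ} {T : Set (ℤ × ℤ)} {w : List Dir} :
    w ∈ XT n T ↔ (w.length = n ∧ Saw w) ∧ PP w n ∈ T := by
  unfold XT
  rw [mem_filter, mem_SW]

theorem sw_XT {n : ℕ} {T : Set (ℤ × ℤ)} {w : List Dir} (hw : w ∈ XT n T) {i : ℕ}
    (hi : i ∈ fc w) : sw w i ∈ XT n T := by
  rw [mem_XT] at hw ⊢
  obtain ⟨⟨hl, hs⟩, hT⟩ := hw
  obtain ⟨h1, h2, _, _, _, h6, _⟩ := hflip w hs i hi
  have h := fc_lt hi
  exact ⟨⟨by rw [h1, hl], h2⟩, by rw [h6 n (by omega)]; exact hT⟩

theorem fc_sw {n : ℕ} {T : Set (ℤ × ℤ)} {w : List Dir} (hw : w ∈ XT n T) {i : ℕ}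
    (hi : i ∈ fc w) : i ∈ fc (sw w i) ∧ sw (sw w i) i = w := by
  obtain ⟨⟨hl, hs⟩, hT⟩ := mem_XT.1 hw
  obtain ⟨_, _, _, h4, h5, _⟩ := hflip w hs i hi
  exact ⟨h4, h5⟩

/-- corner flips -/
def Y (n : ℕ) (T : Set (ℤ × ℤ)) : H726.EX.Ex (List Dir) ℕ where
  X := XT n T
  S := cr 1
  B := cr (-1)
  ins := sw
  rem := sw
  C := 7
  hC := by norm_num
  ins_X := fun w q hw hq => sw_XT hw (mem_filter.1 hq).1
  ins_B := fun w q hw hq => by
    have h := mem_filter.1 hq
    refine mem_filter.2 ⟨(fc_sw hw h.1).1, ?_⟩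
    rw [dl_sw h.1, h.2]
  rem_ins := fun w q hw hq => (fc_sw hw (mem_filter.1 hq).1).2
  rem_X := fun w q hw hq => sw_XT hw (mem_filter.1 hq).1
  rem_S := fun w q hw hq => by
    have h := mem_filter.1 hq
    refine mem_filter.2 ⟨(fc_sw hw h.1).1, ?_⟩
    rw [dl_sw h.1, h.2, neg_neg]
  ins_rem := fun w q hw hq => (fc_sw hw (mem_filter.1 hq).1).2
  chS := fun w q hw hq => card_far (mem_XT.1 hw).1.2 (mem_filter.1 hq).1 1
  chB := fun w q hw hq => by
    have h := mem_filter.1 hq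
    have h1 := card_far (mem_XT.1 (sw_XT hw h.1)).1.2 (fc_sw hw h.1).1 (-1)
    rw [(fc_sw hw h.1).2] at h1
    exact h1

theorem card_cr (w : List Dir) : (cr 1 w).card + (cr (-1) w).card = (fc w).card := by
  unfold cr
  rw [← Finset.card_union_of_disjoint]
  · congr 1
    ext i
    rw [mem_union, mem_filter, mem_filter]
    constructor
    · rintro (h | h) <;> exact h.1
    · intro h
      rcases dl_val h with h1 | h1
      · exact Or.inl ⟨h, h1⟩
      · exact Or.inr ⟨h, h1⟩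
  · rw [Finset.disjoint_left]
    intro i h1 h2
    have h3 := (mem_filter.1 h1).2
    have h4 := (mem_filter.1 h2).2
    omega

theorem fc_card (w : List Dir) : (fc w).card ≤ w.length := by
  unfold fc
  exact (Finset.card_filter_le _ _).trans (by rw [Finset.card_range])

/-- from words to walks -/
theorem walk_filter (n : ℕ) (Q : (Fin (n + 1) → ℤ × ℤ) → Prop) (Q' : List Dir → Prop)
    [DecidablePred Q'] (hQ : ∀ w ∈ SW n, Q (pth n w) ↔ Q' w) :
    {f : Fin (n + 1) → ℤ × ℤ | IsSAW n f ∧ Q f}.ncard = ((SW n).filter Q').card := by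
  have h1 : {f : Fin (n + 1) → ℤ × ℤ | IsSAW n f ∧ Q f} =
      pth n '' (((SW n).filter Q' : Finset (List Dir)) : Set (List Dir)) := by
    ext f
    constructor
    · rintro ⟨g1, g2⟩
      have g3 := wordOf_mem g1
      have g4 := pth_wordOf g1
      refine ⟨wordOf n f, ?_, g4⟩
      rw [Finset.mem_coe, mem_filter]
      refine ⟨g3, (hQ _ g3).1 ?_⟩
      rw [g4]; exact g2
    · rintro ⟨w, hw, rfl⟩
      rw [Finset.mem_coe, mem_filter] at hw
      exact ⟨pth_saw hw.1, (hQ w hw.1).2 hw.2⟩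
  rw [h1]
  refine (((pth_injOn n).mono ?_).ncard_image).trans (Set.ncard_coe_finset _)
  intro w hw
  rw [Finset.mem_coe, mem_filter] at hw
  exact hw.1

theorem card_SW (n : ℕ) : {f : Fin (n + 1) → ℤ × ℤ | IsSAW n f}.ncard = (SW n).card := by
  have h := walk_filter n (fun _ => True) (fun _ => True) (fun _ _ => Iff.rfl)
  rw [Finset.filter_true_of_mem (fun _ _ => trivial)] at h
  rw [← h]
  congr 1
  ext f
  simp

theorem mu_pow (n : ℕ) : H981.mu ^ n ≤ ((SW n).card : ℝ) := by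
  rw [← card_SW]
  have h1 := H981.mu_pow_le n
  rw [H981.cr'_eq] at h1
  refine h1.trans (le_of_eq ?_)
  unfold H981.C
  rw [← Nat.card_coe_set_eq]
  rfl

theorem card_SW_pos (n : ℕ) : (0 : ℝ) < ((SW n).card : ℝ) := by
  obtain ⟨hmu, -⟩ := BND_proof CONV_proof
  have hmu0 : 0 < H981.mu := by linarith
  exact lt_of_lt_of_le (by positivity) (mu_pow n)

theorem few : ∃ C c : ℝ, 0 < C ∧ 0 < c ∧ ∀ n : ℕ,
    ((fewc n).card : ℝ) ≤ C * Real.exp (-(c * n)) * ((SW n).card : ℝ) := by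
  obtain ⟨C, hCpos, h1⟩ := fewc_card
  obtain ⟨hmu, -⟩ := BND_proof CONV_proof
  refine ⟨|C| + 1, - Real.log (2.4 / 2.43), by positivity, ?_, fun n => ?_⟩
  · have := Real.log_neg (show (0 : ℝ) < 2.4 / 2.43 by norm_num) (by norm_num)
    linarith
  have h8 : Real.exp (-(- Real.log (2.4 / 2.43) * n)) = (2.4 / 2.43 : ℝ) ^ n := by
    rw [neg_mul, neg_neg, mul_comm, ← Real.log_pow, Real.exp_log (by positivity)]
  rw [h8]
  have h7 : (2.43 : ℝ) ^ n ≤ ((SW n).card : ℝ) :=
    (pow_le_pow_left₀ (by norm_num) hmu n).trans (mu_pow n)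
  calc ((fewc n).card : ℝ) ≤ C * 2.4 ^ n := h1 n
    _ ≤ (|C| + 1) * 2.4 ^ n := by
        apply mul_le_mul_of_nonneg_right _ (by positivity)
        linarith [le_abs_self C]
    _ = (|C| + 1) * (2.4 / 2.43) ^ n * 2.43 ^ n := by rw [div_pow]; field_simp
    _ ≤ _ := by gcongr

/-- the ratio for walks -/
theorem main : ∃ K c : ℝ, ∃ n₀ : ℕ, 0 < K ∧ 0 < c ∧ ∀ n : ℕ, n₀ ≤ n → ∀ T : Set (ℤ × ℤ),
    ∀ a b : ℤ, (b = a + 1 ∨ a = b + 1) →
    Real.exp (-(c * n)) ≤ (((XT n T).filter (fun w => cm w = a)).card : ℝ) / ((SW n).card : ℝ) →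
    |(((XT n T).filter (fun w => cm w = b)).card : ℝ) -
      (((XT n T).filter (fun w => cm w = a)).card : ℝ)| ≤
      K * Real.sqrt (Real.log (n / ((((XT n T).filter (fun w => cm w = a)).card : ℝ) /
        ((SW n).card : ℝ))) / n) * (((XT n T).filter (fun w => cm w = a)).card : ℝ) := by
  obtain ⟨C0, c0, hC0, hc0, hfew⟩ := few
  obtain ⟨K, c, n₀, hK, hc, h⟩ := Ptw.ptwise (α := List Dir) (σ := ℕ) C0 c0 hC0 hc0
  obtain ⟨hmu, -⟩ := BND_proof CONV_proof
  refine ⟨K, c, max n₀ 3, hK, hc, fun n hn T a b hab hp => ?_⟩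
  have hZ : (0 : ℝ) < ((SW n).card : ℝ) := by
    have hmu0 : 0 < H981.mu := by linarith
    exact lt_of_lt_of_le (by positivity) (mu_pow n)
  have hlen : ∀ w ∈ XT n T, w.length = n ∧ Saw w := fun w hw => (mem_XT.1 hw).1
  have h1 := h n ((le_max_left _ _).trans hn) ((le_max_right _ _).trans hn) (Y n T) rfl
    (fun w hw => by
      have h2 := card_cr w
      have h3 := fc_card w
      have h4 := (hlen w hw).1
      have e1 : ((Y n T).S w).card = (cr 1 w).card := rfl
      have e2 : ((Y n T).B w).card = (cr (-1) w).card := rfl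
      rw [e1, e2]
      omega) cm (fun w q hw hq => by
      have h2 := mem_filter.1 hq
      show cm (sw w q) = cm w + 1
      rw [cm_sw (hlen w hw).2 h2.1, h2.2]) ((SW n).card : ℝ) hZ (by
      have : (Y n T).X ⊆ SW n := filter_subset _ _
      exact_mod_cast Finset.card_le_card this) (fewc n) (hfew n) (fun w hw hlt => by
      have h2 := card_cr w
      have e1 : ((Y n T).S w).card = (cr 1 w).card := rfl
      have e2 : ((Y n T).B w).card = (cr (-1) w).card := rfl
      rw [e1, e2] at hlt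
      have h3 : (((cr 1 w).card : ℝ) + (cr (-1) w).card) = (fc w).card := by exact_mod_cast h2
      rw [h3] at hlt
      unfold fewc
      rw [mem_filter]
      refine ⟨(filter_subset _ _ : XT n T ⊆ SW n) hw, by linarith⟩) a b hab hp
  exact h1

/-- in terms of walks -/
theorem walk_cnt (n : ℕ) (T : Set (ℤ × ℤ)) (a : ℤ) :
    {f : Fin (n + 1) → ℤ × ℤ | IsSAW n f ∧ f (Fin.last n) ∈ T ∧ ∑ k, (f k).1 = a}.ncard =
      ((XT n T).filter (fun w => cm w = a)).card := by
  have h := walk_filter n (fun f => f (Fin.last n) ∈ T ∧ ∑ k, (f k).1 = a)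
    (fun w => PP w n ∈ T ∧ cm w = a) (fun w hw => by
      have hl := (mem_SW.1 hw).1
      have e1 : pth n w (Fin.last n) = PP w n := rfl
      have e2 : ∑ k, (pth n w k).1 = cm w := by
        unfold cm
        rw [hl, Finset.sum_range]
        rfl
      rw [e1, e2])
  rw [h]
  congr 1
  unfold XT
  ext w
  simp only [mem_filter]
  tauto

end

end H726.AL.CM
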