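import Pool.Agent.H726.AL.Rat

/-!
# From words to loops
-/

set_option autoImplicit false

namespace H726.AL

open Finset Pool.Agent.H976R2 Pool.Agent.H976R2.Lip Pool.Agent.H924P Pool.Agent.H739K
open Pool.Agent.R54.AS
open scoped Classical

noncomputable section

open Pool.Agent.H739K.CONV in
theorem loops_filter' {N : ℕ} (hN : 2 ≤ N) (Q : (ZMod (2 * N) → ℤ × ℤ) → Prop)
    (Q' : List Dir → Prop) [DecidablePred Q']
    (hQ : ∀ w ∈ KP (2 * N - 1), Q (lp (2 * N) w) ↔ Q' w) :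
    {f : ZMod (2 * N) → ℤ × ℤ | IsLoop (2 * N) f ∧ Q f}.ncard =
      ((KP (2 * N - 1)).filter Q').card := by
  obtain ⟨n, hn⟩ : ∃ n, 2 * N = n + 1 := ⟨2 * N - 1, by omega⟩
  revert Q
  rw [hn]
  intro Q hQ
  have e : n + 1 - 1 = n := rfl
  rw [e] at hQ ⊢
  have h1 : {f : ZMod (n + 1) → ℤ × ℤ | IsLoop (n + 1) f ∧ Q f} =
      pth n '' (((KP n).filter Q' : Finset (List Dir)) : Set (List Dir)) := by
    ext f
    constructor
    · rintro ⟨g1, g2⟩
      have g3 : f ∈ pth n '' (KP n : Set (List Dir)) := by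
        rw [image_eq]; exact g1
      obtain ⟨w, hw, rfl⟩ := g3
      refine ⟨w, ?_, rfl⟩
      rw [Finset.mem_coe, mem_filter]
      exact ⟨hw, (hQ w hw).1 g2⟩
    · rintro ⟨w, hw, rfl⟩
      rw [Finset.mem_coe, mem_filter] at hw
      refine ⟨?_, (hQ w hw.1).2 hw.2⟩
      have g3 : pth n w ∈ {f | IsLoop (n + 1) f} := by
        rw [← image_eq]
        exact ⟨w, hw.1, rfl⟩
      exact g3
  rw [h1]
  refine (((injOn n).mono ?_).ncard_image).trans (Set.ncard_coe_finset _)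
  intro w hw
  rw [Finset.mem_coe, mem_filter] at hw
  exact hw.1

theorem p_eq {N : ℕ} (hN : 2 ≤ N) (a : ℕ) :
    ({f : ZMod (2 * N) → ℤ × ℤ | IsLoop (2 * N) f ∧ area (2 * N) f = a}.ncard : ℝ) /
      ({f : ZMod (2 * N) → ℤ × ℤ | IsLoop (2 * N) f}.ncard : ℝ) =
      cnt N a / ((KP (2 * N - 1)).card : ℝ) := by
  rw [(CONV_proof N hN).2.1, loops_filter' hN (fun f => area (2 * N) f = a)
    (fun w => (ar w : ℤ) = a) (fun w hw => by
      rw [← Pool.Agent.H739K.F4x.ar_eq hN hw]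
      constructor
      · intro h; exact_mod_cast h
      · intro h; exact_mod_cast h)]
  rfl

end

end H726.AL
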