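import Pool.Agent.H726.AL.CM
import Pool.Agent.H726.AL.Prob

/-!
# Centre of mass of self-avoiding polygons, seen from the root: corner flips
-/

set_option autoImplicit false
set_option linter.unusedVariables false

namespace H726.AL.CMP

open Finset Pool.Agent.H976R2 Pool.Agent.H976R2.Lip Pool.Agent.H924P Pool.Agent.H739K
open Pool.Agent.R54.AS H726.AL.CM
open scoped Classical

noncomputable section

/-- corner flips of polygons -/
def Y (N : ℕ) : H726.EX.Ex (List Dir) ℕ where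
  X := KP (2 * N - 1)
  S := cr 1
  B := cr (-1)
  ins := sw
  rem := sw
  C := 7
  hC := by norm_num
  ins_X := fun w q hw hq => mem_sw hw (mem_filter.1 hq).1
  ins_B := fun w q hw hq => by
    have h := mem_filter.1 hq
    refine mem_filter.2 ⟨(H726.AL.fc_sw hw h.1).1, ?_⟩
    rw [dl_sw h.1, h.2]
  rem_ins := fun w q hw hq => (H726.AL.fc_sw hw (mem_filter.1 hq).1).2
  rem_X := fun w q hw hq => mem_sw hw (mem_filter.1 hq).1
  rem_S := fun w q hw hq => by
    have h := mem_filter.1 hq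
    refine mem_filter.2 ⟨(H726.AL.fc_sw hw h.1).1, ?_⟩
    rw [dl_sw h.1, h.2, neg_neg]
  ins_rem := fun w q hw hq => (H726.AL.fc_sw hw (mem_filter.1 hq).1).2
  chS := fun w q hw hq => CM.card_far (Fin.mem_KP.mp hw).2.1 (mem_filter.1 hq).1 1
  chB := fun w q hw hq => by
    have h := mem_filter.1 hq
    have h1 := CM.card_far (Fin.mem_KP.mp (mem_sw hw h.1)).2.1 (H726.AL.fc_sw hw h.1).1 (-1)
    rw [(H726.AL.fc_sw hw h.1).2] at h1
    exact h1

/-- the ratio for polygons -/
theorem main : ∃ K c : ℝ, ∃ n₀ : ℕ, 0 < K ∧ 0 < c ∧ ∀ N : ℕ, n₀ ≤ N → 2 ≤ N →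
    ∀ a b : ℤ, (b = a + 1 ∨ a = b + 1) →
    Real.exp (-(c * N)) ≤ (((KP (2 * N - 1)).filter (fun w => cm w = a)).card : ℝ) /
      ((KP (2 * N - 1)).card : ℝ) →
    |(((KP (2 * N - 1)).filter (fun w => cm w = b)).card : ℝ) -
      (((KP (2 * N - 1)).filter (fun w => cm w = a)).card : ℝ)| ≤
      K * Real.sqrt (Real.log (N / ((((KP (2 * N - 1)).filter (fun w => cm w = a)).card : ℝ) /
        ((KP (2 * N - 1)).card : ℝ))) / N) *
        (((KP (2 * N - 1)).filter (fun w => cm w = a)).card : ℝ) := by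
  obtain ⟨C0, c0, hC0, hc0, hfew⟩ := Fin.few_exp
  obtain ⟨K, c, n₀, hK, hc, h⟩ := Ptw.ptwise (α := List Dir) (σ := ℕ) C0 c0 hC0 hc0
  refine ⟨2 * K, c, n₀, by positivity, hc, fun N hn hN a b hab hp => ?_⟩
  have hZ : (0 : ℝ) < ((KP (2 * N - 1)).card : ℝ) := Fin.card_pos hN
  obtain ⟨m, hm⟩ : ∃ m : ℕ, m = 2 * N - 1 := ⟨_, rfl⟩
  have hNr : (2 : ℝ) ≤ N := by exact_mod_cast hN
  have hmr : (m : ℝ) = 2 * N - 1 := by
    rw [hm, Nat.cast_sub (by omega)]; push_cast; ring
  have hmN : (N : ℝ) ≤ m := by rw [hmr]; linarith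
  have hlen : ∀ w ∈ KP (2 * N - 1), w.length = m ∧ Saw w := fun w hw => by
    obtain ⟨h1, h2, _⟩ := Fin.mem_KP.mp hw
    exact ⟨by rw [h1, hm], h2⟩
  obtain ⟨q, hq⟩ : ∃ q : ℝ, q = (((KP (2 * N - 1)).filter (fun w => cm w = a)).card : ℝ) := ⟨_, rfl⟩
  obtain ⟨Z, hZd⟩ : ∃ Z : ℝ, Z = ((KP (2 * N - 1)).card : ℝ) := ⟨_, rfl⟩
  have h1 := h m (by omega) (by omega) (Y N) rfl
    (fun w hw => by
      have h2 := card_cr w
      have h3 := CM.fc_card w
      have h4 := (hlen w hw).1
      have e1 : ((Y N).S w).card = (cr 1 w).card := rfl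
      have e2 : ((Y N).B w).card = (cr (-1) w).card := rfl
      rw [e1, e2]
      omega) cm (fun w q hw hq => by
      have h2 := mem_filter.1 hq
      show cm (sw w q) = cm w + 1
      rw [cm_sw (hlen w hw).2 h2.1, h2.2]) ((KP (2 * N - 1)).card : ℝ) hZ le_rfl (fewc m) (by
      have h5 := hfew m (by omega) (by omega)
      rw [hm] at h5 ⊢
      exact h5) (fun w hw hlt => by
      have h2 := card_cr w
      have e1 : ((Y N).S w).card = (cr 1 w).card := rfl
      have e2 : ((Y N).B w).card = (cr (-1) w).card := rfl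
      rw [e1, e2] at hlt
      have h3 : (((cr 1 w).card : ℝ) + (cr (-1) w).card) = (fc w).card := by exact_mod_cast h2
      rw [h3] at hlt
      unfold fewc
      rw [mem_filter]
      refine ⟨?_, by linarith⟩
      have h6 : w ∈ KP (2 * N - 1) := hw
      rw [← hm] at h6
      exact (Finset.mem_filter.mp h6).1) a b hab (by
      refine le_trans (Real.exp_le_exp.2 ?_) hp
      have : c * N ≤ c * m := mul_le_mul_of_nonneg_left hmN hc.le
      linarith)
  have e3 : (Y N).X = KP (2 * N - 1) := rfl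
  rw [e3, ← hq, ← hZd] at h1
  rw [← hq, ← hZd] at hp ⊢
  rw [← hZd] at hZ
  refine h1.trans ?_
  have hq0 : 0 ≤ q := by rw [hq]; exact Nat.cast_nonneg _
  have hP0 : 0 < q / Z := lt_of_lt_of_le (Real.exp_pos _) hp
  have hP1 : q / Z ≤ 1 := by
    rw [div_le_one hZ, hq, hZd]
    exact_mod_cast Finset.card_filter_le _ _
  apply mul_le_mul_of_nonneg_right _ hq0
  have e4 : (2 : ℝ) = Real.sqrt 4 := by
    rw [show (4 : ℝ) = 2 ^ 2 by norm_num, Real.sqrt_sq (by norm_num)]
  have key : Real.sqrt (Real.log (m / (q / Z)) / m) ≤ 2 * Real.sqrt (Real.log (N / (q / Z)) / N) := by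
    rw [e4, ← Real.sqrt_mul (by norm_num)]
    apply Real.sqrt_le_sqrt
    rw [Real.log_div (by linarith) hP0.ne', Real.log_div (by linarith) hP0.ne']
    have hl0 : 0 ≤ - Real.log (q / Z) := by
      have := Real.log_nonpos hP0.le hP1
      linarith
    have hlN : Real.log 2 ≤ Real.log N := Real.log_le_log (by norm_num) hNr
    have hl2 := Real.log_two_gt_d9
    have hlm : Real.log m ≤ Real.log 2 + Real.log N := by
      rw [← Real.log_mul (by norm_num) (by positivity)]
      exact Real.log_le_log (by linarith) (by rw [hmr]; linarith)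
    rw [mul_div_assoc']
    apply div_le_div₀ (by linarith) (by linarith) (by linarith) hmN
  calc K * Real.sqrt (Real.log (m / (q / Z)) / m) ≤
        K * (2 * Real.sqrt (Real.log (N / (q / Z)) / N)) := mul_le_mul_of_nonneg_left key hK.le
    _ = _ := by ring

/-- in terms of loops -/
theorem loop_cnt {N : ℕ} (hN : 2 ≤ N) (a : ℤ) :
    {f : ZMod (2 * N) → ℤ × ℤ | IsLoop (2 * N) f ∧ ∑ᶠ k, (f k).1 = a}.ncard =
      ((KP (2 * N - 1)).filter (fun w => cm w = a)).card := by
  have : NeZero (2 * N) := ⟨by omega⟩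
  refine loops_filter' hN (fun f => ∑ᶠ k, (f k).1 = a) (fun w => cm w = a) (fun w hw => ?_)
  obtain ⟨hl, hs, hq⟩ := Fin.mem_KP.mp hw
  have e2 : ∑ᶠ k, (lp (2 * N) w k).1 = cm w := by
    rw [finsum_eq_sum_of_fintype]
    unfold cm
    rw [hl]
    have e3 : 2 * N - 1 + 1 = 2 * N := by omega
    rw [e3]
    refine Finset.sum_bij' (fun k _ => k.val) (fun j _ => (j : ZMod (2 * N))) ?_ ?_ ?_ ?_ ?_
    · intro k _
      rw [mem_range]
      exact ZMod.val_lt k
    · intro j _
      exact mem_univ _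
    · intro k _
      exact ZMod.natCast_zmod_val k
    · intro j hj
      rw [mem_range] at hj
      exact ZMod.val_natCast_of_lt hj
    · intro k _
      rfl
  rw [e2]

end

end H726.AL.CMP
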