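import Pool.Agent.H726.AL.Level
import Pool.Agent.R54.AS.Flip
import Pool.Agent.R54.AS.Area
import Pool.Agent.R54.AS.Final

/-!
# Corner flips of self-avoiding polygons as reversible moves
-/

set_option autoImplicit false

namespace H726.AL

open Finset Pool.Agent.H976R2 Pool.Agent.H976R2.Lip Pool.Agent.H924P Pool.Agent.H739K
open Pool.Agent.R54.AS
open scoped Classical

noncomputable section

/-- free corners whose flip raises the area -/
def up (w : List Dir) : Finset ℕ := (fc w).filter (fun i => sg w i = 1)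

/-- free corners whose flip lowers the area -/
def dn (w : List Dir) : Finset ℕ := (fc w).filter (fun i => sg w i = -1)

theorem hflip : S_flip := Pool.Agent.R54.AS.flip

theorem harea : S_ar := Pool.Agent.R54.AS.areaS Pool.Agent.R54.AS.flip

theorem mem_sw {N : ℕ} {w : List Dir} (hw : w ∈ KP (2 * N - 1)) {i : ℕ} (hi : i ∈ fc w) :
    sw w i ∈ KP (2 * N - 1) := by
  obtain ⟨hl, hs, hq⟩ := Fin.mem_KP.mp hw
  obtain ⟨h1, h2, h3, _⟩ := hflip w hs i hi
  exact Fin.mem_KP.mpr ⟨by rw [h1, hl], h2, by rw [h3, hq]⟩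

theorem fc_sw {N : ℕ} {w : List Dir} (hw : w ∈ KP (2 * N - 1)) {i : ℕ} (hi : i ∈ fc w) :
    i ∈ fc (sw w i) ∧ sw (sw w i) i = w := by
  obtain ⟨hl, hs, hq⟩ := Fin.mem_KP.mp hw
  obtain ⟨_, _, _, h4, h5, _⟩ := hflip w hs i hi
  exact ⟨h4, h5⟩

theorem sg_sw {N : ℕ} {w : List Dir} (hw : w ∈ KP (2 * N - 1)) {i : ℕ} (hi : i ∈ fc w) :
    sg (sw w i) i = - sg w i := by
  unfold sg
  rw [(fc_sw hw hi).2]
  ring

theorem sg_val {N : ℕ} (hN : 2 ≤ N) {w : List Dir} (hw : w ∈ KP (2 * N - 1)) {i : ℕ}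
    (hi : i ∈ fc w) : sg w i = 1 ∨ sg w i = -1 := by
  obtain ⟨hl, hs, hq⟩ := Fin.mem_KP.mp hw
  exact (harea w (by omega) hs hq i hi).1

/-- the signs of the corners away from the flipped one do not change -/
theorem far {N : ℕ} (hN : 2 ≤ N) {w : List Dir} (hw : w ∈ KP (2 * N - 1)) {i : ℕ}
    (hi : i ∈ fc w) {j : ℕ} (hj : j ∈ fc w) (hjn : j ∉ nr w i) :
    j ∈ fc (sw w i) ∧ j ∉ nr (sw w i) i ∧ sg (sw w i) j = sg w j := by
  obtain ⟨hl, hs, hq⟩ := Fin.mem_KP.mp hw
  obtain ⟨_, _, _, _, _, _, _, _, _, h10⟩ := hflip w hs i hi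
  exact ⟨(h10 j hj hjn).1, (h10 j hj hjn).2, (harea w (by omega) hs hq i hi).2 j hj hjn⟩

theorem nr_card {N : ℕ} {w : List Dir} (hw : w ∈ KP (2 * N - 1)) {i : ℕ} (hi : i ∈ fc w) :
    (nr w i).card ≤ 7 := by
  obtain ⟨hl, hs, hq⟩ := Fin.mem_KP.mp hw
  obtain ⟨_, _, _, _, _, _, _, _, h9, _⟩ := hflip w hs i hi
  exact h9

theorem card_far {N : ℕ} (hN : 2 ≤ N) {w : List Dir} (hw : w ∈ KP (2 * N - 1)) {i : ℕ}
    (hi : i ∈ fc w) (z : ℤ) :
    ((fc w).filter (fun j => sg w j = z)).card ≤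
      ((fc (sw w i)).filter (fun j => sg (sw w i) j = z)).card + 7 := by
  have h1 : (fc w).filter (fun j => sg w j = z) ⊆
      ((fc (sw w i)).filter (fun j => sg (sw w i) j = z)) ∪ nr w i := by
    intro j hj
    rw [mem_filter] at hj
    rw [mem_union, mem_filter]
    by_cases h : j ∈ nr w i
    · exact Or.inr h
    · obtain ⟨g1, _, g3⟩ := far hN hw hi hj.1 h
      exact Or.inl ⟨g1, by rw [g3]; exact hj.2⟩
  have h2 := Finset.card_le_card h1
  have h3 := Finset.card_union_le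
    ((fc (sw w i)).filter (fun j => sg (sw w i) j = z)) (nr w i)
  have h4 := nr_card hw hi
  omega

/-- corner flips as reversible moves -/
def Yc (N : ℕ) (hN : 2 ≤ N) : H726.EX.Ex (List Dir) ℕ where
  X := KP (2 * N - 1)
  S := up
  B := dn
  ins := sw
  rem := sw
  C := 7
  hC := by norm_num
  ins_X := fun w q hw hq => mem_sw hw (mem_filter.1 hq).1
  ins_B := fun w q hw hq => by
    have h := mem_filter.1 hq
    refine mem_filter.2 ⟨(fc_sw hw h.1).1, ?_⟩
    rw [sg_sw hw h.1, h.2]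
  rem_ins := fun w q hw hq => (fc_sw hw (mem_filter.1 hq).1).2
  rem_X := fun w q hw hq => mem_sw hw (mem_filter.1 hq).1
  rem_S := fun w q hw hq => by
    have h := mem_filter.1 hq
    refine mem_filter.2 ⟨(fc_sw hw h.1).1, ?_⟩
    rw [sg_sw hw h.1, h.2, neg_neg]
  ins_rem := fun w q hw hq => (fc_sw hw (mem_filter.1 hq).1).2
  chS := fun w q hw hq => card_far hN hw (mem_filter.1 hq).1 1
  chB := fun w q hw hq => by
    have h := mem_filter.1 hq
    have h1 := card_far hN (mem_sw hw h.1) (fc_sw hw h.1).1 (-1)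
    rw [(fc_sw hw h.1).2] at h1
    exact h1

theorem up_dn {N : ℕ} (hN : 2 ≤ N) {w : List Dir} (hw : w ∈ KP (2 * N - 1)) :
    (up w).card + (dn w).card = (fc w).card := by
  unfold up dn
  rw [← Finset.card_union_of_disjoint]
  · congr 1
    ext i
    rw [mem_union, mem_filter, mem_filter]
    constructor
    · rintro (h | h) <;> exact h.1
    · intro h
      rcases sg_val hN hw h with h1 | h1
      · exact Or.inl ⟨h, h1⟩
      · exact Or.inr ⟨h, h1⟩
  · rw [Finset.disjoint_left]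
    intro i h1 h2
    have h3 := (mem_filter.1 h1).2
    have h4 := (mem_filter.1 h2).2
    omega

theorem fc_card {N : ℕ} {w : List Dir} (hw : w ∈ KP (2 * N - 1)) :
    (fc w).card ≤ 2 * N - 1 := by
  have h1 : (fc w).card ≤ w.length := by
    unfold fc
    exact (Finset.card_filter_le _ _).trans (by rw [Finset.card_range])
  rw [(Fin.mem_KP.mp hw).1] at h1
  exact h1

/-- the flips of `up` raise the area by one -/
theorem ar_up (N : ℕ) (hN : 2 ≤ N) : ∀ w q, w ∈ (Yc N hN).X → q ∈ (Yc N hN).S w →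
    (fun w => (ar w : ℤ)) ((Yc N hN).ins w q) = (fun w => (ar w : ℤ)) w + 1 := by
  intro w q _ hq
  have h := (mem_filter.1 hq).2
  unfold sg at h
  show (ar (sw w q) : ℤ) = ar w + 1
  linarith

theorem wt (N : ℕ) (hN : 2 ≤ N) {x : ℝ} (hx : 0 < x) :
    (Yc N hN).Wt (fun w => x ^ (ar w)) x := by
  refine ⟨fun w _ => by positivity, fun w q hw hq => ?_⟩
  have h := ar_up N hN w q hw hq
  have h1 : ar ((Yc N hN).ins w q) = ar w + 1 := by
    simp only at h
    omega
  show x ^ (ar ((Yc N hN).ins w q)) = x * x ^ (ar w)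
  rw [h1, pow_succ]
  ring

end

end H726.AL
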