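import Pool.Agent.H726.GB.Exch

/-!
# Reversible local moves that raise an integer observable by one: comparison of two levels
-/

set_option autoImplicit false

namespace H726.EX

open Finset
open scoped Classical

noncomputable section

variable {α σ : Type}

/-- one level is at least `ρ` times the previous one, apart from a small set -/
theorem Ex.level (Y : Ex α σ) (A : α → ℤ)
    (hA : ∀ w q, w ∈ Y.X → q ∈ Y.S w → A (Y.ins w q) = A w + 1)
    (a : ℤ) (ρ : ℝ) (D : Finset α)
    (hD : ∀ w ∈ Y.X, A w = a → w ∉ D → ρ * ((Y.B w).card + Y.C) ≤ (Y.S w).card)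
    (hρ : 0 ≤ ρ) :
    ρ * (((Y.X.filter (fun w => A w = a)).card : ℝ) - D.card) ≤
      ((Y.X.filter (fun w => A w = a + 1)).card : ℝ) := by
  have hC : (1 : ℝ) ≤ Y.C := by exact_mod_cast Y.hC
  have h1 := Y.sum_eq (fun w w' => if A w = a then 1 / ((Y.B w').card : ℝ) else 0)
  -- upper bound of the right-hand side
  have h2 : ∑ w ∈ Y.X, ∑ q ∈ Y.B w, (if A (Y.rem w q) = a then 1 / ((Y.B w).card : ℝ) else 0) ≤
      ((Y.X.filter (fun w => A w = a + 1)).card : ℝ) := by
    rw [Finset.card_filter]
    push_cast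
    refine Finset.sum_le_sum fun w hw => ?_
    have h3 : ∀ q ∈ Y.B w, (if A (Y.rem w q) = a then 1 / ((Y.B w).card : ℝ) else 0) =
        (if A w = a + 1 then 1 / ((Y.B w).card : ℝ) else 0) := by
      intro q hq
      have h4 := hA _ q (Y.rem_X w q hw hq) (Y.rem_S w q hw hq)
      rw [Y.ins_rem w q hw hq] at h4
      by_cases h5 : A w = a + 1
      · rw [if_pos h5, if_pos (by omega)]
      · rw [if_neg h5, if_neg (by omega)]
    rw [Finset.sum_congr rfl h3]
    by_cases h5 : A w = a + 1
    · simp only [if_pos h5]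
      exact sum_const_div _ _ zero_le_one
    · simp only [if_neg h5]
      rw [Finset.sum_const_zero]
  -- lower bound of the left-hand side
  have h6 : ρ * (((Y.X.filter (fun w => A w = a)).card : ℝ) - D.card) ≤
      ∑ w ∈ Y.X, ∑ q ∈ Y.S w, (if A w = a then 1 / ((Y.B (Y.ins w q)).card : ℝ) else 0) := by
    have h7 : ((Y.X.filter (fun w => A w = a)).card : ℝ) - D.card ≤
        (((Y.X.filter (fun w => A w = a)) \ D).card : ℝ) := by
      have := Finset.le_card_sdiff D (Y.X.filter (fun w => A w = a))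
      have h8 : (Y.X.filter (fun w => A w = a)).card ≤
          ((Y.X.filter (fun w => A w = a)) \ D).card + D.card := by omega
      have h9 : ((Y.X.filter (fun w => A w = a)).card : ℝ) ≤
          ((Y.X.filter (fun w => A w = a)) \ D).card + D.card := by exact_mod_cast h8
      linarith
    calc ρ * (((Y.X.filter (fun w => A w = a)).card : ℝ) - D.card)
        ≤ ρ * (((Y.X.filter (fun w => A w = a)) \ D).card : ℝ) :=
          mul_le_mul_of_nonneg_left h7 hρ
      _ = ∑ w ∈ (Y.X.filter (fun w => A w = a)) \ D, ρ := by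
          rw [Finset.sum_const, nsmul_eq_mul, mul_comm]
      _ ≤ ∑ w ∈ (Y.X.filter (fun w => A w = a)) \ D,
          ∑ q ∈ Y.S w, (if A w = a then 1 / ((Y.B (Y.ins w q)).card : ℝ) else 0) := by
          refine Finset.sum_le_sum fun w hw => ?_
          rw [mem_sdiff, mem_filter] at hw
          obtain ⟨⟨hwX, hwa⟩, hwD⟩ := hw
          simp only [if_pos hwa]
          have h8 := hD w hwX hwa hwD
          have hb0 : (0 : ℝ) < (Y.B w).card + Y.C := by positivity
          calc ρ ≤ (Y.S w).card / ((Y.B w).card + Y.C) := by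
                rw [le_div_iff₀ hb0]; exact h8
            _ = ∑ q ∈ Y.S w, 1 / ((Y.B w).card + Y.C : ℝ) := by
                rw [Finset.sum_const, nsmul_eq_mul, mul_one_div]
            _ ≤ _ := by
                refine Finset.sum_le_sum fun q hq => ?_
                have c2 : ((Y.B (Y.ins w q)).card : ℝ) ≤ (Y.B w).card + Y.C := by
                  exact_mod_cast Y.chB w q hwX hq
                have c3 : (0 : ℝ) < (Y.B (Y.ins w q)).card := by
                  exact_mod_cast Finset.card_pos.2 ⟨q, Y.ins_B w q hwX hq⟩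
                exact one_div_le_one_div_of_le c3 c2
      _ ≤ _ := by
          refine Finset.sum_le_sum_of_subset_of_nonneg
            (sdiff_subset.trans (filter_subset _ _)) fun w _ _ => ?_
          refine Finset.sum_nonneg fun q _ => ?_
          split_ifs <;> positivity
  linarith

/-- comparison of two levels for a balanced family: `F` is the total number of moves -/
theorem Ex.ratio (Y : Ex α σ) (A : α → ℤ)
    (hA : ∀ w q, w ∈ Y.X → q ∈ Y.S w → A (Y.ins w q) = A w + 1)
    (m : ℕ) (hm : 1 ≤ m) (hN : ∀ w ∈ Y.X, (Y.S w).card + (Y.B w).card ≤ m)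
    (hC : Y.C ≤ 7)
    (ε t d : ℝ) (hε : 0 < ε) (ht : 1 ≤ t) (hδ : 32 * t / (ε * Real.sqrt m) ≤ 1 / 2)
    (D : Finset α) (hDd : (D.card : ℝ) ≤ d)
    (hD1 : ∀ w ∈ Y.X, ((Y.S w).card : ℝ) + (Y.B w).card < ε * m → w ∈ D)
    (hD2 : ∀ w ∈ Y.X, t * Real.sqrt ((Y.S w).card + (Y.B w).card) <
      |1 * ((Y.S w).card : ℝ) - (Y.B w).card| → w ∈ D) (a : ℤ) :
    (1 - 32 * t / (ε * Real.sqrt m)) * (((Y.X.filter (fun w => A w = a)).card : ℝ) - d) ≤
      ((Y.X.filter (fun w => A w = a + 1)).card : ℝ) ∧
    (1 - 32 * t / (ε * Real.sqrt m)) * (((Y.X.filter (fun w => A w = a + 1)).card : ℝ) - d) ≤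
      ((Y.X.filter (fun w => A w = a)).card : ℝ) := by
  have hm0 : (1 : ℝ) ≤ m := by exact_mod_cast hm
  have hs0 : 1 ≤ Real.sqrt m := by
    rw [Real.one_le_sqrt]; exact hm0
  have hsm : Real.sqrt m * Real.sqrt m = m := Real.mul_self_sqrt (by linarith)
  obtain ⟨δ, hδd⟩ : ∃ δ : ℝ, δ = 32 * t / (ε * Real.sqrt m) := ⟨_, rfl⟩
  rw [← hδd] at hδ ⊢
  have hδ0 : 0 < δ := by rw [hδd]; positivity
  have hδm : δ * (ε * m) = 32 * t * Real.sqrt m := by
    rw [hδd]
    have : (ε * (m : ℝ)) = (ε * Real.sqrt m) * Real.sqrt m := by rw [mul_assoc, hsm]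
    rw [this]
    field_simp
  have hC7 : (Y.C : ℝ) ≤ 7 := by exact_mod_cast hC
  have hC0 : (0 : ℝ) ≤ Y.C := by positivity
  -- the inequality for good configurations, for two numbers
  have core : ∀ s b : ℝ, 0 ≤ s → 0 ≤ b → s + b ≤ m → ε * m ≤ s + b →
      |s - b| ≤ t * Real.sqrt (s + b) → (1 - δ) * (b + Y.C) ≤ s := by
    intro s b hs hb h1 h2 h3
    have h4 : |s - b| ≤ t * Real.sqrt m :=
      h3.trans (mul_le_mul_of_nonneg_left (Real.sqrt_le_sqrt h1) (by linarith))
    have h5 := (abs_le.1 h4).1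
    have h6 := (abs_le.1 h4).2
    have h7 : δ * (b + Y.C) ≥ t * Real.sqrt m + 7 := by
      have h8 : t * Real.sqrt m ≤ ε * m / 64 := by
        have : 32 * t * Real.sqrt m ≤ 1 / 2 * (ε * m) := by
          rw [← hδm]
          exact mul_le_mul_of_nonneg_right hδ (by positivity)
        linarith
      have h9 : ε * m / 4 ≤ b := by linarith
      have h10 : δ * (ε * m / 4) ≤ δ * (b + Y.C) :=
        mul_le_mul_of_nonneg_left (by linarith) hδ0.le
      have h11 : δ * (ε * m / 4) = 8 * (t * Real.sqrt m) := by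
        have : δ * (ε * m / 4) = (δ * (ε * m)) / 4 := by ring
        rw [this, hδm]; ring
      have h12 : 1 ≤ t * Real.sqrt m := by nlinarith
      linarith
    nlinarith
  have good : ∀ w ∈ Y.X, w ∉ D → (ε * m ≤ ((Y.S w).card : ℝ) + (Y.B w).card) ∧
      |((Y.S w).card : ℝ) - (Y.B w).card| ≤ t * Real.sqrt ((Y.S w).card + (Y.B w).card) := by
    intro w hw hwD
    constructor
    · by_contra hcon
      exact hwD (hD1 w hw (not_le.1 hcon))
    · by_contra hcon
      apply hwD (hD2 w hw _)
      rw [one_mul]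
      exact not_le.1 hcon
  have hDd' : ∀ x : ℝ, (1 - δ) * (x - d) ≤ (1 - δ) * (x - D.card) := fun x =>
    mul_le_mul_of_nonneg_left (by linarith) (by linarith)
  constructor
  · refine (hDd' _).trans ?_
    refine Y.level A hA a (1 - δ) D (fun w hw _ hwD => ?_) (by linarith)
    obtain ⟨g1, g2⟩ := good w hw hwD
    exact core _ _ (by positivity) (by positivity) (by exact_mod_cast hN w hw) g1 g2
  · refine (hDd' _).trans ?_
    have hrev := Y.rev.level (fun w => - A w) (fun w q hw hq => by
      have h4 := hA _ q (Y.rem_X w q hw hq) (Y.rem_S w q hw hq)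
      rw [Y.ins_rem w q hw hq] at h4
      show - A (Y.rem w q) = - A w + 1
      omega) (- (a + 1)) (1 - δ) D (fun w hw _ hwD => by
        obtain ⟨g1, g2⟩ := good w hw hwD
        have h3 := hN w hw
        show (1 - δ) * (((Y.S w).card : ℝ) + Y.C) ≤ (Y.B w).card
        exact core _ _ (by positivity) (by positivity) (by
          have : (Y.B w).card + (Y.S w).card ≤ m := by omega
          exact_mod_cast this) (by linarith) (by
          rw [abs_sub_comm, add_comm]; exact g2)) (by linarith)
    have e1 : Y.rev.X.filter (fun w => - A w = - (a + 1)) = Y.X.filter (fun w => A w = a + 1) := by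
      refine Finset.filter_congr fun w _ => ?_
      constructor <;> intro h <;> omega
    have e2 : Y.rev.X.filter (fun w => - A w = - (a + 1) + 1) = Y.X.filter (fun w => A w = a) := by
      refine Finset.filter_congr fun w _ => ?_
      constructor <;> intro h <;> omega
    rw [e1, e2] at hrev
    exact hrev

end

end H726.EX
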