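import Pool.Agent.H726.AL.Prob

/-!
# Free corners of loops
-/

set_option autoImplicit false

namespace H726.AL

open Finset Pool.Agent.H976R2 Pool.Agent.H976R2.Lip Pool.Agent.H924P Pool.Agent.H739K
open Pool.Agent.R54.AS
open scoped Classical

noncomputable section

/-- move the vertex number `k` to the other side of the square of its two edges -/
def mv (m : ℕ) (f : ZMod m → ℤ × ℤ) (k : ZMod m) : ZMod m → ℤ × ℤ :=
  Function.update f k (f (k - 1) + f (k + 1) - f k)

/-- free corners away from the root edge whose flip changes the area by `z` -/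
def frs (m : ℕ) (f : ZMod m → ℤ × ℤ) (z : ℤ) : ℕ :=
  Nat.card {k : ZMod m // k ≠ 0 ∧ k ≠ -1 ∧ (∀ j, f j ≠ f (k - 1) + f (k + 1) - f k) ∧
    (area m (mv m f k) : ℤ) = area m f + z}

theorem lp_nat {N : ℕ} (hN : 2 ≤ N) {w : List Dir} (hl : w.length = 2 * N - 1) :
    ∀ i : ℕ, i ≤ w.length → lp (2 * N) w ((i : ℕ) : ZMod (2 * N)) = PP w i := by
  intro i hi
  unfold Pool.Agent.H739K.lp PP
  rw [ZMod.val_natCast_of_lt (by omega)]

theorem lp_sw {N : ℕ} (hN : 2 ≤ N) {w : List Dir} (hw : w ∈ KP (2 * N - 1)) {i : ℕ}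
    (hi : i ∈ fc w) : lp (2 * N) (sw w i) = mv (2 * N) (lp (2 * N) w) ((i + 1 : ℕ)) := by
  obtain ⟨hl, hs, hq⟩ := Fin.mem_KP.mp hw
  have : NeZero (2 * N) := ⟨by omega⟩
  obtain ⟨hlen, _, _, _, _, hP, _⟩ := hflip w hs i hi
  have hi2 : i + 1 < w.length := by
    unfold fc at hi
    rw [Finset.mem_filter] at hi
    exact hi.2.1
  have hi3 := (mem_filter.1 hi).2
  have hP1 : PP (sw w i) (i + 1) = fv w i := Pool.Agent.R715.ASFlip.PP_sw_1 w i hi2
  funext j
  by_cases hj : j = ((i + 1 : ℕ) : ZMod (2 * N))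
  · rw [hj]
    unfold mv
    rw [Function.update_self, lp_nat hN (by rw [hlen, hl]) _ (by rw [hlen]; omega), hP1]
    have e1 : (((i + 1 : ℕ)) : ZMod (2 * N)) - 1 = ((i : ℕ) : ZMod (2 * N)) := by push_cast; ring
    have e2 : (((i + 1 : ℕ)) : ZMod (2 * N)) + 1 = ((i + 2 : ℕ) : ZMod (2 * N)) := by push_cast; ring
    rw [e1, e2, lp_nat hN hl i (by omega), lp_nat hN hl (i + 1) (by omega),
      lp_nat hN hl (i + 2) (by omega)]
    rw [PP_succ w (i + 1) hi2]
    unfold fv
    abel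
  · unfold mv
    rw [Function.update_of_ne hj]
    have h1 : j.val ≠ i + 1 := by
      intro h
      apply hj
      rw [← h, ZMod.natCast_zmod_val]
    exact hP j.val h1

/-- the free corners of the loop of a word -/
theorem frs_eq {N : ℕ} (hN : 2 ≤ N) {w : List Dir} (hw : w ∈ KP (2 * N - 1)) (z : ℤ) :
    frs (2 * N) (lp (2 * N) w) z = ((fc w).filter (fun i => sg w i = z)).card := by
  obtain ⟨hl, hs, hq⟩ := Fin.mem_KP.mp hw
  have : NeZero (2 * N) := ⟨by omega⟩
  unfold frs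
  rw [Nat.card_eq_fintype_card, Fintype.card_subtype]
  symm
  have hlp := lp_nat hN hl
  have hfree : ∀ i : ℕ, i + 1 < w.length →
      (lp (2 * N) w ((((i + 1 : ℕ)) : ZMod (2 * N)) - 1) +
        lp (2 * N) w ((((i + 1 : ℕ)) : ZMod (2 * N)) + 1) -
        lp (2 * N) w (((i + 1 : ℕ)) : ZMod (2 * N)) = fv w i) := by
    intro i hi2
    have e1 : (((i + 1 : ℕ)) : ZMod (2 * N)) - 1 = ((i : ℕ) : ZMod (2 * N)) := by push_cast; ring
    have e2 : (((i + 1 : ℕ)) : ZMod (2 * N)) + 1 = ((i + 2 : ℕ) : ZMod (2 * N)) := by push_cast; ring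
    rw [e1, e2, hlp i (by omega), hlp (i + 1) (by omega), hlp (i + 2) (by omega)]
    rw [PP_succ w (i + 1) hi2]
    unfold fv
    abel
  have hvis : ∀ p : ℤ × ℤ, vis w p ↔ ∃ j, lp (2 * N) w j = p := by
    intro p
    constructor
    · rintro ⟨u, v, huv, h1, h2⟩
      refine ⟨((u.length : ℕ) : ZMod (2 * N)), ?_⟩
      have h3 : u.length ≤ w.length := by rw [huv]; simp
      rw [hlp u.length h3]
      unfold PP
      have h4 : w.take u.length = u := by rw [huv]; simp
      rw [h4]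
      exact Prod.ext h1 h2
    · rintro ⟨j, hj⟩
      exact ⟨w.take j.val, w.drop j.val, (List.take_append_drop _ w).symm,
        congrArg Prod.fst hj, congrArg Prod.snd hj⟩
  refine Finset.card_bij (fun i _ => (((i + 1 : ℕ)) : ZMod (2 * N))) ?_ ?_ ?_
  · intro i hi
    rw [mem_filter] at hi
    have hi2 : i + 1 < w.length := (mem_filter.1 hi.1).2.1
    have hi3 : ¬ vis w (fv w i) := (mem_filter.1 hi.1).2.2.2
    rw [mem_filter]
    refine ⟨mem_univ _, ?_, ?_, ?_, ?_⟩
    · intro h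
      have h5 := congrArg ZMod.val h
      rw [ZMod.val_natCast_of_lt (by omega), ZMod.val_zero] at h5
      omega
    · intro h
      have h5 : (((i + 2 : ℕ)) : ZMod (2 * N)) = 0 := by
        have : (((i + 2 : ℕ)) : ZMod (2 * N)) = (((i + 1 : ℕ)) : ZMod (2 * N)) + 1 := by
          push_cast; ring
        rw [this, h]; ring
      have h6 := congrArg ZMod.val h5
      rw [ZMod.val_natCast_of_lt (by omega), ZMod.val_zero] at h6
      omega
    · intro j hj
      rw [hfree i hi2] at hj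
      exact hi3 ((hvis _).2 ⟨j, hj⟩)
    · rw [← lp_sw hN hw hi.1]
      have h7 := F4x.ar_eq hN hw
      have h8 := F4x.ar_eq hN (mem_sw hw hi.1)
      rw [← h7, ← h8]
      have h9 := hi.2
      unfold sg at h9
      linarith
  · intro i hi j hj hij
    rw [mem_filter] at hi hj
    have hi2 : i + 1 < w.length := (mem_filter.1 hi.1).2.1
    have hj2 : j + 1 < w.length := (mem_filter.1 hj.1).2.1
    have h5 := congrArg ZMod.val hij
    rw [ZMod.val_natCast_of_lt (by omega), ZMod.val_natCast_of_lt (by omega)] at h5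
    omega
  · intro k hk
    rw [mem_filter] at hk
    obtain ⟨-, hk0, hk1, hk2, hk3⟩ := hk
    have hkv : k.val < 2 * N := ZMod.val_lt k
    have hkv0 : k.val ≠ 0 := fun h => hk0 ((ZMod.val_eq_zero k).1 h)
    have hkv1 : k.val ≠ 2 * N - 1 := by
      intro h
      apply hk1
      rw [← ZMod.natCast_zmod_val k, h, Nat.cast_sub (by omega)]
      rw [ZMod.natCast_self]
      ring
    obtain ⟨i, hi⟩ : ∃ i, k.val = i + 1 := ⟨k.val - 1, by omega⟩
    have hki : k = (((i + 1 : ℕ)) : ZMod (2 * N)) := by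
      rw [← hi, ZMod.natCast_zmod_val]
    have hi2 : i + 1 < w.length := by omega
    have hnv : ¬ vis w (fv w i) := by
      intro h
      obtain ⟨j, hj⟩ := (hvis _).1 h
      apply hk2 j
      rw [hki, hfree i hi2]
      exact hj
    have hperp : perp (lt w i) (lt w (i + 1)) := by
      by_contra hcon
      have g1 := PP_succ w i (by omega)
      have g2 := PP_succ w (i + 1) hi2
      have g3 : dv (lt w i) = dv (lt w (i + 1)) ∨ dv (lt w i) + dv (lt w (i + 1)) = 0 := by
        revert hcon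
        generalize lt w i = d
        generalize lt w (i + 1) = e
        cases d <;> cases e <;> simp [perp, dv, dx, dy]
      rcases g3 with g3 | g3
      · apply hnv
        have g4 : fv w i = PP w (i + 1) := by
          rw [g1, g3]; rfl
        rw [g4]
        exact Pool.Agent.R715.ASFlip.vis_PP w (i + 1) (by omega)
      · have g4 : PP w (i + 1 + 1) = PP w i := by
          rw [g2, g1, add_assoc, g3, add_zero]
        have g5 := PP_inj hs (by omega) (by omega) g4
        omega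
    have hfc : i ∈ fc w := by
      unfold fc
      rw [mem_filter, mem_range]
      exact ⟨by omega, hi2, hperp, hnv⟩
    refine ⟨i, ?_, hki.symm⟩
    rw [mem_filter]
    refine ⟨hfc, ?_⟩
    rw [hki, ← lp_sw hN hw hfc] at hk3
    have h7 := F4x.ar_eq hN hw
    have h8 := F4x.ar_eq hN (mem_sw hw hfc)
    rw [← h7, ← h8] at hk3
    unfold sg
    linarith

open Pool.Agent.H739K.CONV in
theorem loops_sum {N : ℕ} (hN : 2 ≤ N) (Q : (ZMod (2 * N) → ℤ × ℤ) → Prop)
    (Q' : List Dir → Prop) [DecidablePred Q']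
    (hQ : ∀ w ∈ KP (2 * N - 1), Q (lp (2 * N) w) ↔ Q' w) (F : (ZMod (2 * N) → ℤ × ℤ) → ℝ) :
    ∑ᶠ f ∈ {f : ZMod (2 * N) → ℤ × ℤ | IsLoop (2 * N) f ∧ Q f}, F f =
      ∑ w ∈ (KP (2 * N - 1)).filter Q', F (lp (2 * N) w) := by
  obtain ⟨n, hn⟩ : ∃ n, 2 * N = n + 1 := ⟨2 * N - 1, by omega⟩
  revert Q F
  rw [hn]
  intro Q hQ F
  have e : n + 1 - 1 = n := rfl
  rw [e] at hQ ⊢
  have h1 : {f : ZMod (n + 1) → ℤ × ℤ | IsLoop (n + 1) f ∧ Q f} =
      pth n '' (((KP n).filter Q' : Finset (List Dir)) : Set (List Dir)) := by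
    ext f
    constructor
    · rintro ⟨g1, g2⟩
      have g3 : f ∈ pth n '' (KP n : Set (List Dir)) := by
        rw [image_eq]; exact g1
      obtain ⟨w, hw, rfl⟩ := g3
      refine ⟨w, ?_, rfl⟩
      rw [Finset.mem_coe, mem_filter]
      exact ⟨hw, (hQ w hw).1 g2⟩
    · rintro ⟨w, hw, rfl⟩
      rw [Finset.mem_coe, mem_filter] at hw
      refine ⟨?_, (hQ w hw.1).2 hw.2⟩
      have g3 : pth n w ∈ {f | IsLoop (n + 1) f} := by
        rw [← image_eq]
        exact ⟨w, hw.1, rfl⟩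
      exact g3
  have h2 : Set.InjOn (pth n) (((KP n).filter Q' : Finset (List Dir)) : Set (List Dir)) := by
    refine (injOn n).mono ?_
    intro w hw
    rw [Finset.mem_coe, mem_filter] at hw
    exact hw.1
  have h3 : ∑ᶠ f ∈ {f : ZMod (n + 1) → ℤ × ℤ | IsLoop (n + 1) f ∧ Q f}, F f =
      ∑ᶠ f ∈ pth n '' (((KP n).filter Q' : Finset (List Dir)) : Set (List Dir)), F f := by
    rw [h1]
    rfl
  have h4 : ∑ᶠ f ∈ pth n '' (((KP n).filter Q' : Finset (List Dir)) : Set (List Dir)), F f =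
      ∑ᶠ w ∈ (((KP n).filter Q' : Finset (List Dir)) : Set (List Dir)), F (pth n w) :=
    finsum_mem_image h2
  exact (h3.trans h4).trans (finsum_mem_coe_finset _ _)

/-- probability of `Q` when a polygon of area `a` has weight `x ^ a` -/
def prx (N : ℕ) (x : ℝ) (Q : (ZMod (2 * N) → ℤ × ℤ) → Prop) : ℝ :=
  (∑ᶠ f ∈ {f : ZMod (2 * N) → ℤ × ℤ | IsLoop (2 * N) f ∧ Q f}, x ^ area (2 * N) f) /
    (∑ᶠ f ∈ {f : ZMod (2 * N) → ℤ × ℤ | IsLoop (2 * N) f}, x ^ area (2 * N) f)

/-- balance of the free corners with area fugacity `x` -/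
theorem corner_balance (x : ℝ) (hx : 0 < x) : ∃ c : ℝ, 0 < c ∧ ∀ N : ℕ, 2 ≤ N → ∀ t : ℝ, 0 ≤ t →
    prx N x (fun f => t * Real.sqrt (frs (2 * N) f 1 + frs (2 * N) f (-1)) <
      |x * frs (2 * N) f 1 - frs (2 * N) f (-1)|) ≤ 4 * Real.exp 1 * N * Real.exp (-(c * t ^ 2)) := by
  refine ⟨H726.EX.kap2 7 x, H726.EX.kap2_pos (by norm_num) hx, fun N hN t ht => ?_⟩
  have h := H726.EX.balance (wt N hN hx) hx (2 * N - 1) (fun w hw => by
    have h1 := up_dn hN hw
    have h2 := fc_card hw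
    have e1 : ((Yc N hN).S w).card = (up w).card := rfl
    have e2 : ((Yc N hN).B w).card = (dn w).card := rfl
    rw [e1, e2]
    omega) ht
  have e3 : (Yc N hN).X = KP (2 * N - 1) := rfl
  have e4 : (Yc N hN).C = 7 := rfl
  rw [e3, e4] at h
  unfold prx
  rw [loops_sum hN (fun f => t * Real.sqrt (frs (2 * N) f 1 + frs (2 * N) f (-1)) <
      |x * frs (2 * N) f 1 - frs (2 * N) f (-1)|)
    (fun w => t * Real.sqrt (((Yc N hN).S w).card + ((Yc N hN).B w).card) <
      |x * ((Yc N hN).S w).card - ((Yc N hN).B w).card|) (fun w hw => by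
      rw [frs_eq hN hw, frs_eq hN hw]
      exact Iff.rfl) (fun f => x ^ area (2 * N) f),
    (CONV_proof N hN).1 (fun f => x ^ area (2 * N) f)]
  have e5 : ∀ s ⊆ KP (2 * N - 1), ∑ w ∈ s, x ^ area (2 * N) (lp (2 * N) w) =
      ∑ w ∈ s, x ^ ar w := by
    intro s hs
    refine Finset.sum_congr rfl fun w hw => ?_
    rw [← Pool.Agent.H739K.F4x.ar_eq hN (hs hw)]
  rw [e5 _ (filter_subset _ _), e5 _ (subset_refl _)]
  have hne : (KP (2 * N - 1)).Nonempty := by
    rw [← Finset.card_pos]; exact_mod_cast Fin.card_pos hN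
  have hZ : 0 < ∑ w ∈ KP (2 * N - 1), x ^ ar w := Finset.sum_pos (fun w _ => by positivity) hne
  rw [div_le_iff₀ hZ]
  refine h.trans ?_
  apply mul_le_mul_of_nonneg_right _ hZ.le
  apply mul_le_mul_of_nonneg_right _ (Real.exp_pos _).le
  have h5 : ((2 * N - 1 : ℕ) : ℝ) ≤ 2 * N := by
    have : 2 * N - 1 ≤ 2 * N := by omega
    exact_mod_cast this
  nlinarith [Real.exp_pos 1]

end

end H726.AL
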