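import Pool.Agent.H726.AL.Level

/-!
# Pointwise ratios of an observable changed by one by reversible moves
-/

set_option autoImplicit false
set_option linter.unusedVariables false

namespace H726.AL

open Finset
open scoped Classical

noncomputable section

namespace Ptw2

variable {α σ : Type}

/-- the exponent -/
def kp : ℝ := min (H726.EX.kap2 7 1) 1

theorem kp_pos : 0 < kp := lt_min (H726.EX.kap2_pos (by norm_num) one_pos) one_pos

/-- balance -/
theorem bal (Y : H726.EX.Ex α σ) (hC : Y.C = 7) (m : ℕ)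
    (hN : ∀ w ∈ Y.X, (Y.S w).card + (Y.B w).card ≤ m) {t : ℝ} (ht : 0 ≤ t) :
    ((Y.X.filter (fun w => t * Real.sqrt ((Y.S w).card + (Y.B w).card) <
      |1 * ((Y.S w).card : ℝ) - (Y.B w).card|)).card : ℝ) ≤
      2 * Real.exp 1 * m * Real.exp (-(kp * t ^ 2)) * (Y.X.card : ℝ) := by
  have hw : Y.Wt (fun _ => (1 : ℝ)) 1 := ⟨fun _ _ => zero_le_one, fun _ _ _ _ => by simp⟩
  have h := H726.EX.balance hw one_pos m (fun w hw => by
    have h1 := hN w hw
    omega) ht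
  rw [Finset.sum_const, Finset.sum_const, nsmul_eq_mul, nsmul_eq_mul, mul_one, mul_one] at h
  rw [hC] at h
  refine le_trans h ?_
  have h3 : Real.exp (-(H726.EX.kap2 7 1 * t ^ 2)) ≤ Real.exp (-(kp * t ^ 2)) := by
    rw [Real.exp_le_exp]
    have : kp * t ^ 2 ≤ H726.EX.kap2 7 1 * t ^ 2 :=
      mul_le_mul_of_nonneg_right (min_le_left _ _) (by positivity)
    linarith
  gcongr

theorem arith {δ p p' d : ℝ} (h0 : 0 < δ) (h1 : δ ≤ 1 / 2) (hp : 0 ≤ p) (hd : d ≤ δ * p)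
    (g1 : (1 - δ) * (p - d) ≤ p') (g2 : (1 - δ) * (p' - d) ≤ p) : |p' - p| ≤ 3 * δ * p := by
  have e1 : (1 - δ) * d ≤ (1 - δ) * (δ * p) := mul_le_mul_of_nonneg_left hd (by linarith)
  have e3 : 0 ≤ δ * p := by positivity
  rw [abs_le]
  constructor
  · nlinarith
  · -- p' ≤ (1 + 3δ) p
    have e2 : (1 - δ) * p' ≤ p + (1 - δ) * (δ * p) := by linarith
    have e4 : p + (1 - δ) * (δ * p) ≤ (1 - δ) * ((1 + 3 * δ) * p) := by
      have : (1 - δ) * ((1 + 3 * δ) * p) - (p + (1 - δ) * (δ * p)) = δ * p * (1 - 2 * δ) := by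
        ring
      have h5 : 0 ≤ δ * p * (1 - 2 * δ) := mul_nonneg e3 (by linarith)
      linarith
    have e5 : (1 - δ) * p' ≤ (1 - δ) * ((1 + 3 * δ) * p) := e2.trans e4
    have e6 : p' ≤ (1 + 3 * δ) * p := le_of_mul_le_mul_left e5 (by linarith)
    linarith

/-- the pointwise ratio -/
theorem ptwise (C0 c0 : ℝ) (hC0 : 0 < C0) (hc0 : 0 < c0) :
    ∃ K c : ℝ, ∃ n₀ : ℕ, 0 < K ∧ 0 < c ∧ ∀ m : ℕ, n₀ ≤ m → 3 ≤ m →
    ∀ (Y : H726.EX.Ex α σ), Y.C = 7 → (∀ w ∈ Y.X, (Y.S w).card + (Y.B w).card ≤ m) →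
    ∀ (A : α → ℤ), (∀ w q, w ∈ Y.X → q ∈ Y.S w → A (Y.ins w q) = A w + 1) →
    ∀ (Z : ℝ), 0 < Z → (Y.X.card : ℝ) ≤ Z → ∀ (E : Finset α), (E.card : ℝ) ≤ C0 * Real.exp (-(c0 * m)) * Z →
    (∀ w ∈ Y.X, ((Y.S w).card : ℝ) + (Y.B w).card < 1 / 51 * m → w ∈ E) →
    ∀ a b : ℤ, (b = a + 1 ∨ a = b + 1) →
    Real.exp (-(c * m)) ≤ ((Y.X.filter (fun w => A w = a)).card : ℝ) / Z →
    |((Y.X.filter (fun w => A w = b)).card : ℝ) - ((Y.X.filter (fun w => A w = a)).card : ℝ)| ≤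
      K * Real.sqrt (Real.log (m / (((Y.X.filter (fun w => A w = a)).card : ℝ) / Z)) / m) *
      ((Y.X.filter (fun w => A w = a)).card : ℝ) := by
  have hk := kp_pos
  obtain ⟨k, hkd⟩ : ∃ k : ℝ, k = kp := ⟨_, rfl⟩
  rw [← hkd] at hk
  obtain ⟨κ2, hκ2⟩ : ∃ κ2 : ℝ, κ2 = k / 21307392 := ⟨_, rfl⟩
  have hκ20 : 0 < κ2 := by rw [hκ2]; positivity
  obtain ⟨n₀, hn₀⟩ := exists_nat_ge (16 * C0 / c0 ^ 2 + 49 / κ2 ^ 2)
  refine ⟨4896 * Real.sqrt (8 / k), min κ2 (c0 / 2), n₀, by positivity,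
    lt_min hκ20 (by positivity), fun m hN0 hm3' Y hYC hYm A hA Z hZ0 hXZ E hE1 hE2 a b hab hPa => ?_⟩
  obtain ⟨cnt, hcnt⟩ : ∃ cnt : ℤ → ℝ, cnt = fun a => ((Y.X.filter (fun w => A w = a)).card : ℝ) :=
    ⟨_, rfl⟩
  have ecnt : ∀ a, ((Y.X.filter (fun w => A w = a)).card : ℝ) = cnt a := fun a => by rw [hcnt]
  have cnt_nonneg : ∀ a, 0 ≤ cnt a := fun a => by rw [← ecnt]; exact Nat.cast_nonneg _
  have cnt_le : ∀ a, cnt a ≤ Z := fun a => by
    rw [← ecnt]
    refine le_trans ?_ hXZ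
    exact_mod_cast Finset.card_filter_le _ _
  rw [ecnt] at hPa ⊢
  rw [ecnt]
  have hm3 : (3 : ℝ) ≤ m := by exact_mod_cast hm3'
  have hn0m : 16 * C0 / c0 ^ 2 + 49 / κ2 ^ 2 ≤ m := by
    have : (n₀ : ℝ) ≤ m := by exact_mod_cast hN0
    linarith
  have hA1 : 16 * C0 / c0 ^ 2 ≤ m := by
    have : 0 ≤ 49 / κ2 ^ 2 := by positivity
    linarith
  have hA2 : 49 / κ2 ^ 2 ≤ m := by
    have : 0 ≤ 16 * C0 / c0 ^ 2 := by positivity
    linarith
  obtain ⟨P, hP⟩ : ∃ P : ℝ, P = cnt a / Z := ⟨_, rfl⟩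
  rw [← hP] at hPa ⊢
  have hP0 : 0 < P := lt_of_lt_of_le (Real.exp_pos _) hPa
  have hcP : cnt a = P * Z := by rw [hP]; field_simp
  have hP1 : P ≤ 1 := by
    rw [hP, div_le_one hZ0]
    exact cnt_le a
  have hPa1 : Real.exp (-(κ2 * m)) ≤ P := by
    refine le_trans (Real.exp_le_exp.2 ?_) hPa
    have : min κ2 (c0 / 2) * m ≤ κ2 * m := mul_le_mul_of_nonneg_right (min_le_left _ _) (by linarith)
    linarith
  have hPa2 : Real.exp (-(c0 / 2 * m)) ≤ P := by
    refine le_trans (Real.exp_le_exp.2 ?_) hPa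
    have : min κ2 (c0 / 2) * m ≤ c0 / 2 * m :=
      mul_le_mul_of_nonneg_right (min_le_right _ _) (by linarith)
    linarith
  obtain ⟨ℓ, hℓ⟩ : ∃ ℓ : ℝ, ℓ = - Real.log P := ⟨_, rfl⟩
  have hℓ0 : 0 ≤ ℓ := by
    rw [hℓ]
    have := Real.log_nonpos hP0.le hP1
    linarith
  have hℓ1 : ℓ ≤ κ2 * m := by
    rw [hℓ]
    have := Real.log_le_log (Real.exp_pos _) hPa1
    rw [Real.log_exp] at this
    linarith
  -- the logarithm of `4 e m ^ 2`
  obtain ⟨Lg, hLg⟩ : ∃ Lg : ℝ, Lg = Real.log (4 * Real.exp 1 * m ^ 2) := ⟨_, rfl⟩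
  have hLg1 : Lg = Real.log 4 + 1 + 2 * Real.log m := by
    rw [hLg, Real.log_mul (by positivity) (by positivity), Real.log_mul (by norm_num)
      (by positivity), Real.log_exp, Real.log_pow]
    push_cast
    ring
  have hlog4 : Real.log 4 = 2 * Real.log 2 := by
    rw [show (4 : ℝ) = 2 ^ 2 by norm_num, Real.log_pow]; push_cast; ring
  have hl2a := Real.log_two_gt_d9
  have hl2b := Real.log_two_lt_d9
  have hlm0 : 0 ≤ Real.log m := Real.log_nonneg (by linarith)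
  have hLg2 : 1 ≤ Lg := by rw [hLg1, hlog4]; linarith
  have hsm : 1 ≤ Real.sqrt m := by
    rw [Real.one_le_sqrt]; linarith
  have hsmm : Real.sqrt m * Real.sqrt m = m := Real.mul_self_sqrt (by linarith)
  have hLg3 : Lg ≤ 7 * Real.sqrt m := by
    have h1 : Real.log m = 2 * Real.log (Real.sqrt m) := by
      rw [Real.log_sqrt (by linarith)]; ring
    have h2 := Real.log_le_sub_one_of_pos (show 0 < Real.sqrt m by linarith)
    rw [hLg1, hlog4, h1]
    linarith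
  have hLg4 : Lg ≤ κ2 * m := by
    have h1 : 7 / κ2 ≤ Real.sqrt m := by
      rw [Real.le_sqrt' (by positivity), div_pow]
      linarith
    rw [div_le_iff₀ hκ20] at h1
    calc Lg ≤ 7 * Real.sqrt m := hLg3
      _ ≤ (Real.sqrt m * κ2) * Real.sqrt m := mul_le_mul_of_nonneg_right h1 (by linarith)
      _ = κ2 * m := by
        have : (Real.sqrt m * κ2) * Real.sqrt m = κ2 * (Real.sqrt m * Real.sqrt m) := by ring
        rw [this, hsmm]
  -- the threshold
  obtain ⟨t, ht⟩ : ∃ t : ℝ, t = Real.sqrt ((Lg + ℓ) / k) := ⟨_, rfl⟩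
  have hk1 : k ≤ 1 := by rw [hkd]; exact min_le_right _ _
  have hts : t ^ 2 = (Lg + ℓ) / k := by rw [ht, Real.sq_sqrt (by positivity)]
  have hkt : k * t ^ 2 = Lg + ℓ := by rw [hts]; field_simp
  have ht1 : 1 ≤ t := by
    rw [ht, Real.one_le_sqrt, le_div_iff₀ hk]; linarith
  have htm : t ≤ Real.sqrt m / 3264 := by
    have h1 : t ^ 2 ≤ (Real.sqrt m / 3264) ^ 2 := by
      rw [hts, div_pow, Real.sq_sqrt (by linarith), div_le_iff₀ hk]
      have h2 : Lg + ℓ ≤ 2 * (κ2 * m) := by linarith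
      refine h2.trans (le_of_eq ?_)
      rw [hκ2]; ring
    exact le_of_sq_le_sq h1 (by positivity)
  have hδ : 32 * t / (1 / 51 * Real.sqrt m) ≤ 1 / 2 := by
    rw [div_le_iff₀ (by positivity)]
    linarith
  -- the exceptional set
  obtain ⟨D, hD⟩ : ∃ D : Finset α, D = (Y.X.filter (fun w => t *
      Real.sqrt ((Y.S w).card + (Y.B w).card) < |1 * ((Y.S w).card : ℝ) - (Y.B w).card|)) ∪
      E := ⟨_, rfl⟩
  have hDc : (D.card : ℝ) ≤ P * Z / m := by
    have h1 : (D.card : ℝ) ≤ ((Y.X.filter (fun w => t *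
      Real.sqrt ((Y.S w).card + (Y.B w).card) < |1 * ((Y.S w).card : ℝ) - (Y.B w).card|)).card : ℝ) +
      (E.card : ℝ) := by
      rw [hD]
      exact_mod_cast Finset.card_union_le _ _
    have h2 := bal Y hYC m hYm (t := t) (by linarith)
    rw [← hkd, hkt] at h2
    have h4 : 2 * Real.exp 1 * m * Real.exp (-(Lg + ℓ)) = P / (2 * m) := by
      rw [neg_add, Real.exp_add, hℓ, neg_neg, Real.exp_log hP0, Real.exp_neg, hLg,
        Real.exp_log (by positivity)]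
      field_simp
      ring
    rw [h4] at h2
    have h2' : P / (2 * m) * (Y.X.card : ℝ) ≤ P / (2 * m) * Z :=
      mul_le_mul_of_nonneg_left hXZ (by positivity)
    have h5 : C0 * Real.exp (-(c0 * m)) ≤ P / (2 * m) := by
      have g1 : Real.exp (-(c0 * m)) = Real.exp (-(c0 / 2 * m)) * Real.exp (-(c0 / 2 * m)) := by
        rw [← Real.exp_add]; ring_nf
      have g3 : C0 * Real.exp (-(c0 / 2 * m)) ≤ 1 / (2 * m) := by
        have g4 := Real.quadratic_le_exp_of_nonneg (show 0 ≤ c0 / 2 * m by positivity)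
        have g5 : 2 * m * C0 ≤ Real.exp (c0 / 2 * m) := by
          have g6 : 2 * m * C0 ≤ (c0 / 2 * m) ^ 2 / 2 := by
            rw [div_le_iff₀ (by positivity)] at hA1
            nlinarith
          have g7 : 0 ≤ c0 / 2 * m := by positivity
          linarith
        rw [Real.exp_neg, le_div_iff₀ (by positivity), mul_assoc, mul_comm, mul_assoc,
          inv_mul_le_iff₀ (Real.exp_pos _)]
        linarith
      calc C0 * Real.exp (-(c0 * m)) = (C0 * Real.exp (-(c0 / 2 * m))) *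
            Real.exp (-(c0 / 2 * m)) := by rw [g1]; ring
        _ ≤ 1 / (2 * m) * P := mul_le_mul g3 hPa2 (by positivity) (by positivity)
        _ = P / (2 * m) := by ring
    have h6 : C0 * Real.exp (-(c0 * m)) * Z ≤ P / (2 * m) * Z :=
      mul_le_mul_of_nonneg_right h5 hZ0.le
    have h7 : P * Z / m = P / (2 * m) * Z + P / (2 * m) * Z := by
      field_simp
      ring
    linarith
  have hratio : ∀ a' : ℤ, (1 - 32 * t / (1 / 51 * Real.sqrt m)) * (cnt a' - P * Z / m) ≤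
        cnt (a' + 1) ∧
      (1 - 32 * t / (1 / 51 * Real.sqrt m)) * (cnt (a' + 1) - P * Z / m) ≤ cnt a' := by
    intro a'
    have h := Y.ratio A hA m (by omega) hYm (by omega) (1 / 51) t (P * Z / m) (by norm_num) ht1 hδ D
      hDc (fun w hw hlt => by
      rw [hD, mem_union]
      exact Or.inr (hE2 w hw hlt)) (fun w hw hlt => by
      rw [hD, mem_union, mem_filter]
      exact Or.inl ⟨hw, hlt⟩) a'
    rw [ecnt, ecnt] at h
    exact h
  obtain ⟨δ, hδd⟩ : ∃ δ : ℝ, δ = 32 * t / (1 / 51 * Real.sqrt m) := ⟨_, rfl⟩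
  rw [← hδd] at hδ hratio
  have hδ0 : 0 < δ := by rw [hδd]; positivity
  have hdδ : P * Z / m ≤ δ * (P * Z) := by
    have h1 : 1 / (m : ℝ) ≤ δ := by
      rw [hδd, div_le_div_iff₀ (by positivity) (by positivity)]
      nlinarith
    calc P * Z / m = 1 / m * (P * Z) := by ring
      _ ≤ δ * (P * Z) := mul_le_mul_of_nonneg_right h1 (by positivity)
  have key : |cnt b - cnt a| ≤ 3 * δ * cnt a := by
    rcases hab with h | h
    · rw [h]
      obtain ⟨g1, g2⟩ := hratio a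
      rw [← hcP] at hdδ g1 g2
      exact arith hδ0 hδ (cnt_nonneg _) hdδ g1 g2
    · rw [h] at hcP ⊢
      obtain ⟨g1, g2⟩ := hratio b
      rw [← hcP] at hdδ g1 g2
      exact arith hδ0 hδ (cnt_nonneg _) hdδ g2 g1
  refine key.trans ?_
  have hcn : 0 ≤ cnt a := cnt_nonneg a
  apply mul_le_mul_of_nonneg_right _ hcn
  -- final comparison
  have hlogN : Real.log (m / P) = Real.log m + ℓ := by
    rw [Real.log_div (by positivity) hP0.ne', hℓ]; ring
  have hlN : Real.log 2 ≤ Real.log m := Real.log_le_log (by norm_num) (by linarith)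
  have hLg5 : Lg ≤ 8 * Real.log m := by
    rw [hLg1, hlog4]; linarith
  rw [hlogN]
  have h1 : t / Real.sqrt m ≤ Real.sqrt (8 / k) * Real.sqrt ((Real.log m + ℓ) / m) := by
    rw [ht, ← Real.sqrt_div (by positivity), ← Real.sqrt_mul (by positivity)]
    apply Real.sqrt_le_sqrt
    rw [div_div, div_mul_div_comm]
    apply div_le_div₀ (by positivity) (by linarith) (by positivity) le_rfl
  calc 3 * δ = 4896 * (t / Real.sqrt m) := by
        rw [hδd]; field_simp; ring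
    _ ≤ 4896 * (Real.sqrt (8 / k) * Real.sqrt ((Real.log m + ℓ) / m)) := by linarith
    _ = _ := by ring

end Ptw2

end

end H726.AL
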