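import Pool.Agent.H726.AL.CM
import Pool.Agent.H726.AL.Ptw2

/-!
# Two-sided self-avoiding walks: separation of the centres of mass of the two halves
-/

set_option autoImplicit false
set_option linter.unusedVariables false

namespace H726.AL.Pair

open Finset Pool.Agent.H976R2 Pool.Agent.H976R2.Lip Pool.Agent.H924P Pool.Agent.H739K
open Pool.Agent.R54.AS H726.AL.CM
open scoped Classical

noncomputable section

/-- sign of the half -/
def sn (n k : ℕ) : ℤ := if n < k then 1 else if k < n then -1 else 0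

/-- change of the separation -/
def sl (n : ℕ) (w : List Dir) (i : ℕ) : ℤ := sn n (i + 1) * dl w i

/-- separation -/
def sep (n : ℕ) (w : List Dir) : ℤ :=
  ∑ k ∈ range (2 * n + 1), sn n k * ((PP w k).1 - (PP w n).1)

/-- two-sided walks with end points in `T` -/
def XP (n : ℕ) (T : Set ((ℤ × ℤ) × (ℤ × ℤ))) : Finset (List Dir) :=
  (SW (2 * n)).filter (fun w => (PP w 0 - PP w n, PP w (2 * n) - PP w n) ∈ T)

theorem mem_XP {n : ℕ} {T : Set ((ℤ × ℤ) × (ℤ × ℤ))} {w : List Dir} :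
    w ∈ XP n T ↔ (w.length = 2 * n ∧ Saw w) ∧ (PP w 0 - PP w n, PP w (2 * n) - PP w n) ∈ T := by
  unfold XP
  rw [mem_filter, mem_SW]

/-- corners of a given sign -/
def cs (n : ℕ) (z : ℤ) (w : List Dir) : Finset ℕ := (fc w).filter (fun i => i + 1 ≠ n ∧ sl n w i = z)

theorem sl_sw {n : ℕ} {w : List Dir} {i : ℕ} (hi : i ∈ fc w) : sl n (sw w i) i = - sl n w i := by
  unfold sl
  rw [dl_sw hi]
  ring

theorem sw_XP {n : ℕ} {T : Set ((ℤ × ℤ) × (ℤ × ℤ))} {w : List Dir} (hw : w ∈ XP n T) {i : ℕ}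
    (hi : i ∈ fc w) (hin : i + 1 ≠ n) : sw w i ∈ XP n T := by
  rw [mem_XP] at hw ⊢
  obtain ⟨⟨hl, hs⟩, hT⟩ := hw
  obtain ⟨h1, h2, _, _, _, h6, _⟩ := hflip w hs i hi
  have h := fc_lt hi
  refine ⟨⟨by rw [h1, hl], h2⟩, ?_⟩
  rw [h6 0 (by omega), h6 n (by omega), h6 (2 * n) (by omega)]
  exact hT

theorem fc_sw {n : ℕ} {T : Set ((ℤ × ℤ) × (ℤ × ℤ))} {w : List Dir} (hw : w ∈ XP n T) {i : ℕ}
    (hi : i ∈ fc w) : i ∈ fc (sw w i) ∧ sw (sw w i) i = w := by
  obtain ⟨⟨hl, hs⟩, hT⟩ := mem_XP.1 hw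
  obtain ⟨_, _, _, h4, h5, _⟩ := hflip w hs i hi
  exact ⟨h4, h5⟩

theorem card_far {n : ℕ} {w : List Dir} (hs : Saw w) {i : ℕ} (hi : i ∈ fc w) (z : ℤ) :
    (cs n z w).card ≤ (cs n z (sw w i)).card + 7 := by
  obtain ⟨_, _, _, _, _, _, _, _, h9, h10⟩ := hflip w hs i hi
  have h1 : cs n z w ⊆ cs n z (sw w i) ∪ nr w i := by
    intro j hj
    have hj' := mem_filter.1 hj
    rw [mem_union]
    by_cases h : j ∈ nr w i
    · exact Or.inr h
    · refine Or.inl (mem_filter.2 ⟨(h10 j hj'.1 h).1, hj'.2.1, ?_⟩)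
      have h2 := hj'.2.2
      unfold sl at h2 ⊢
      rw [dl_far hi hj'.1 h]
      exact h2
  have h2 := Finset.card_le_card h1
  have h3 := Finset.card_union_le (cs n z (sw w i)) (nr w i)
  omega

theorem sep_sw {n : ℕ} {w : List Dir} (hl : w.length = 2 * n) (hs : Saw w) {i : ℕ}
    (hi : i ∈ fc w) (hin : i + 1 ≠ n) : sep n (sw w i) = sep n w + sl n w i := by
  have h := fc_lt hi
  obtain ⟨hlen, _, _, _, _, hP, _⟩ := hflip w hs i hi
  unfold sep
  have hmem : i + 1 ∈ range (2 * n + 1) := by rw [mem_range]; omega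
  rw [← Finset.add_sum_erase _ _ hmem, ← Finset.add_sum_erase (range (2 * n + 1))
    (fun k => sn n k * ((PP w k).1 - (PP w n).1)) hmem]
  have h1 : ∑ j ∈ (range (2 * n + 1)).erase (i + 1), sn n j * ((PP (sw w i) j).1 - (PP (sw w i) n).1) =
      ∑ j ∈ (range (2 * n + 1)).erase (i + 1), sn n j * ((PP w j).1 - (PP w n).1) := by
    refine Finset.sum_congr rfl fun j hj => ?_
    rw [hP j (Finset.ne_of_mem_erase hj), hP n (by omega)]
  rw [h1, Pool.Agent.R715.ASFlip.PP_sw_1 w i h, PP_succ w i (by omega), hP n (by omega)]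
  unfold fv sl dl dv
  simp only [Prod.fst_add]
  ring

/-- corner flips -/
def Y (n : ℕ) (T : Set ((ℤ × ℤ) × (ℤ × ℤ))) : H726.EX.Ex (List Dir) ℕ where
  X := XP n T
  S := cs n 1
  B := cs n (-1)
  ins := sw
  rem := sw
  C := 7
  hC := by norm_num
  ins_X := fun w q hw hq => sw_XP hw (mem_filter.1 hq).1 (mem_filter.1 hq).2.1
  ins_B := fun w q hw hq => by
    have h := mem_filter.1 hq
    refine mem_filter.2 ⟨(fc_sw hw h.1).1, h.2.1, ?_⟩
    rw [sl_sw h.1, h.2.2]
  rem_ins := fun w q hw hq => (fc_sw hw (mem_filter.1 hq).1).2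
  rem_X := fun w q hw hq => sw_XP hw (mem_filter.1 hq).1 (mem_filter.1 hq).2.1
  rem_S := fun w q hw hq => by
    have h := mem_filter.1 hq
    refine mem_filter.2 ⟨(fc_sw hw h.1).1, h.2.1, ?_⟩
    rw [sl_sw h.1, h.2.2, neg_neg]
  ins_rem := fun w q hw hq => (fc_sw hw (mem_filter.1 hq).1).2
  chS := fun w q hw hq => card_far (mem_XP.1 hw).1.2 (mem_filter.1 hq).1 1
  chB := fun w q hw hq => by
    have h := mem_filter.1 hq
    have h1 := card_far (n := n) (mem_XP.1 (sw_XP hw h.1 h.2.1)).1.2 (fc_sw hw h.1).1 (-1)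
    rw [(fc_sw hw h.1).2] at h1
    exact h1

theorem card_cs (n : ℕ) (w : List Dir) : (cs n 1 w).card + (cs n (-1) w).card ≤ (fc w).card ∧
    (fc w).card ≤ (cs n 1 w).card + (cs n (-1) w).card + 1 := by
  have hd : Disjoint (cs n 1 w) (cs n (-1) w) := by
    rw [Finset.disjoint_left]
    intro i h1 h2
    have h3 := (mem_filter.1 h1).2.2
    have h4 := (mem_filter.1 h2).2.2
    omega
  rw [← Finset.card_union_of_disjoint hd]
  constructor
  · apply Finset.card_le_card
    intro i hi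
    rw [mem_union] at hi
    rcases hi with h | h
    · exact (mem_filter.1 h).1
    · exact (mem_filter.1 h).1
  · have h1 : fc w ⊆ (cs n 1 w ∪ cs n (-1) w) ∪ {n - 1} := by
      intro i hi
      rw [mem_union, mem_union]
      by_cases hin : i + 1 = n
      · right
        rw [mem_singleton]
        omega
      · left
        have h2 : sn n (i + 1) = 1 ∨ sn n (i + 1) = -1 := by
          unfold sn
          split_ifs <;> omega
        have h3 : sl n w i = 1 ∨ sl n w i = -1 := by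
          unfold sl
          rcases dl_val hi with h4 | h4 <;> rcases h2 with h5 | h5 <;> rw [h4, h5] <;> simp
        rcases h3 with h4 | h4
        · exact Or.inl (mem_filter.2 ⟨hi, hin, h4⟩)
        · exact Or.inr (mem_filter.2 ⟨hi, hin, h4⟩)
    have h2 := Finset.card_le_card h1
    have h3 := Finset.card_union_le (cs n 1 w ∪ cs n (-1) w) {n - 1}
    rw [Finset.card_singleton] at h3
    omega

/-- the ratio for two-sided walks -/
theorem main : ∃ K c : ℝ, ∃ n₀ : ℕ, 0 < K ∧ 0 < c ∧ ∀ n : ℕ, n₀ ≤ n →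
    ∀ T : Set ((ℤ × ℤ) × (ℤ × ℤ)), ∀ a b : ℤ, (b = a + 1 ∨ a = b + 1) →
    Real.exp (-(c * n)) ≤ (((XP n T).filter (fun w => sep n w = a)).card : ℝ) /
      ((SW (2 * n)).card : ℝ) →
    |(((XP n T).filter (fun w => sep n w = b)).card : ℝ) -
      (((XP n T).filter (fun w => sep n w = a)).card : ℝ)| ≤
      K * Real.sqrt (Real.log (n / ((((XP n T).filter (fun w => sep n w = a)).card : ℝ) /
        ((SW (2 * n)).card : ℝ))) / n) *
        (((XP n T).filter (fun w => sep n w = a)).card : ℝ) := by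
  obtain ⟨C0, c0, hC0, hc0, hfew⟩ := CM.few
  obtain ⟨K, c, n₀, hK, hc, h⟩ := Ptw2.ptwise (α := List Dir) (σ := ℕ) C0 c0 hC0 hc0
  refine ⟨K, c, max n₀ 3000, hK, hc, fun n hn T a b hab hp => ?_⟩
  have hn1 : n₀ ≤ n := (le_max_left _ _).trans hn
  have hn2 : 3000 ≤ n := (le_max_right _ _).trans hn
  have hnr : (3000 : ℝ) ≤ n := by exact_mod_cast hn2
  have hZ : (0 : ℝ) < ((SW (2 * n)).card : ℝ) := card_SW_pos (2 * n)
  have hlen : ∀ w ∈ XP n T, w.length = 2 * n ∧ Saw w := fun w hw => (mem_XP.1 hw).1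
  have hcast : ((2 * n : ℕ) : ℝ) = 2 * n := by push_cast; ring
  have h1 := h (2 * n) (by omega) (by omega) (Y n T) rfl
    (fun w hw => by
      have h2 := (card_cs n w).1
      have h3 := CM.fc_card w
      have h4 := (hlen w hw).1
      have e1 : ((Y n T).S w).card = (cs n 1 w).card := rfl
      have e2 : ((Y n T).B w).card = (cs n (-1) w).card := rfl
      rw [e1, e2]
      omega) (sep n) (fun w q hw hq => by
      have h2 := mem_filter.1 hq
      show sep n (sw w q) = sep n w + 1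
      rw [sep_sw (hlen w hw).1 (hlen w hw).2 h2.1 h2.2.1, h2.2.2]) ((SW (2 * n)).card : ℝ) hZ (by
      have : (Y n T).X ⊆ SW (2 * n) := filter_subset _ _
      exact_mod_cast Finset.card_le_card this) (fewc (2 * n)) (hfew (2 * n)) (fun w hw hlt => by
      have h2 := (card_cs n w).2
      have e1 : ((Y n T).S w).card = (cs n 1 w).card := rfl
      have e2 : ((Y n T).B w).card = (cs n (-1) w).card := rfl
      rw [e1, e2, hcast] at hlt
      have h3 : ((fc w).card : ℝ) ≤ ((cs n 1 w).card : ℝ) + (cs n (-1) w).card + 1 := by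
        exact_mod_cast h2
      unfold fewc
      rw [mem_filter, hcast]
      refine ⟨(filter_subset _ _ : XP n T ⊆ SW (2 * n)) hw, by linarith⟩) a b hab (by
      refine le_trans (Real.exp_le_exp.2 ?_) hp
      rw [hcast]
      have : c * n ≤ c * (2 * n) := mul_le_mul_of_nonneg_left (by linarith) hc.le
      linarith)
  have e3 : (Y n T).X = XP n T := rfl
  obtain ⟨q, hq⟩ : ∃ q : ℝ, q = (((XP n T).filter (fun w => sep n w = a)).card : ℝ) := ⟨_, rfl⟩
  obtain ⟨Z, hZd⟩ : ∃ Z : ℝ, Z = ((SW (2 * n)).card : ℝ) := ⟨_, rfl⟩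
  rw [e3, ← hq, ← hZd, hcast] at h1
  rw [← hq, ← hZd] at hp ⊢
  rw [← hZd] at hZ
  refine h1.trans ?_
  have hq0 : 0 ≤ q := by rw [hq]; exact Nat.cast_nonneg _
  have hP0 : 0 < q / Z := lt_of_lt_of_le (Real.exp_pos _) hp
  have hP1 : q / Z ≤ 1 := by
    rw [div_le_one hZ, hq, hZd]
    exact_mod_cast Finset.card_le_card ((filter_subset _ _).trans (filter_subset _ _))
  apply mul_le_mul_of_nonneg_right _ hq0
  apply mul_le_mul_of_nonneg_left _ hK.le
  apply Real.sqrt_le_sqrt
  rw [Real.log_div (by linarith) hP0.ne', Real.log_div (by linarith) hP0.ne',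
    Real.log_mul (by norm_num) (by linarith)]
  have hl0 : 0 ≤ - Real.log (q / Z) := by
    have := Real.log_nonpos hP0.le hP1
    linarith
  have hlN : Real.log 2 ≤ Real.log n := Real.log_le_log (by norm_num) (by linarith)
  have hn0 : (0 : ℝ) < n := by linarith
  rw [div_le_div_iff₀ (by linarith) hn0]
  nlinarith

/-- the midpoint -/
def mid (n : ℕ) : Fin (2 * n + 1) := ⟨n, by omega⟩

/-- two-sided walks -/
def TS (n : ℕ) (ω : Fin (2 * n + 1) → ℤ × ℤ) : Prop :=
  ω (mid n) = (0, 0) ∧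
  (∀ i : Fin (2 * n), |(ω i.succ).1 - (ω i.castSucc).1| + |(ω i.succ).2 - (ω i.castSucc).2| = 1) ∧
  Function.Injective ω

theorem ts_image (n : ℕ) (Q : (Fin (2 * n + 1) → ℤ × ℤ) → Prop) :
    {ω | TS n ω ∧ Q ω}.ncard =
      {g : Fin (2 * n + 1) → ℤ × ℤ | IsSAW (2 * n) g ∧ Q (fun k => g k - g (mid n))}.ncard := by
  have h1 : {ω | TS n ω ∧ Q ω} = (fun (g : Fin (2 * n + 1) → ℤ × ℤ) k => g k - g (mid n)) ''
      {g | IsSAW (2 * n) g ∧ Q (fun k => g k - g (mid n))} := by
    ext ω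
    constructor
    · rintro ⟨⟨h0, hs, hi⟩, hq⟩
      have e : (fun k => (ω k - ω 0) - (ω (mid n) - ω 0)) = ω := by
        funext k
        rw [h0]
        ext <;> simp
      refine ⟨fun k => ω k - ω 0, ⟨⟨?_, ?_, ?_⟩, ?_⟩, e⟩
      · show ω 0 - ω 0 = (0, 0)
        rw [sub_self]; rfl
      · intro i
        have h2 := hs i
        simp only [Prod.fst_sub, Prod.snd_sub, sub_sub_sub_cancel_right]
        exact h2
      · intro i j hij
        exact hi (sub_left_injective hij)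
      · show Q (fun k => (ω k - ω 0) - (ω (mid n) - ω 0))
        rw [e]; exact hq
    · rintro ⟨g, ⟨⟨h0, hs, hi⟩, hq⟩, rfl⟩
      refine ⟨⟨?_, ?_, ?_⟩, hq⟩
      · show g (mid n) - g (mid n) = (0, 0)
        rw [sub_self]; rfl
      · intro i
        have h2 := hs i
        simp only [Prod.fst_sub, Prod.snd_sub, sub_sub_sub_cancel_right]
        exact h2
      · intro i j hij
        exact hi (sub_left_injective hij)
  rw [h1, Set.InjOn.ncard_image]
  intro g hg g' hg' he
  have h2 : ∀ k, g k - g (mid n) = g' k - g' (mid n) := fun k => congrFun he k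
  have h3 := h2 0
  rw [hg.1.1, hg'.1.1] at h3
  have h4 : g (mid n) = g' (mid n) := sub_right_injective h3
  funext k
  have h5 := h2 k
  rw [h4] at h5
  exact sub_left_injective h5

/-- separation of the centres of mass of the two halves -/
def sepF (n : ℕ) (ω : Fin (2 * n + 1) → ℤ × ℤ) : ℤ :=
  ∑ k : Fin (2 * n + 1), (if n < (k : ℕ) then (ω k).1 else if (k : ℕ) < n then -(ω k).1 else 0)

theorem two_cnt (n : ℕ) (T : Set ((ℤ × ℤ) × (ℤ × ℤ))) (a : ℤ) :
    {ω | TS n ω ∧ ((ω 0, ω (Fin.last _)) ∈ T ∧ sepF n ω = a)}.ncard =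
      ((XP n T).filter (fun w => sep n w = a)).card := by
  rw [ts_image n (fun ω => (ω 0, ω (Fin.last _)) ∈ T ∧ sepF n ω = a)]
  have h := walk_filter (2 * n) (fun g => (g 0 - g (mid n), g (Fin.last _) - g (mid n)) ∈ T ∧
      sepF n (fun k => g k - g (mid n)) = a)
    (fun w => (PP w 0 - PP w n, PP w (2 * n) - PP w n) ∈ T ∧ sep n w = a) (fun w hw => by
      have e1 : pth (2 * n) w (Fin.last _) = PP w (2 * n) := rfl
      have e2 : pth (2 * n) w 0 = PP w 0 := rfl
      have e3 : pth (2 * n) w (mid n) = PP w n := rfl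
      have e4 : sepF n (fun k => pth (2 * n) w k - pth (2 * n) w (mid n)) = sep n w := by
        unfold sep sepF
        rw [Finset.sum_range]
        refine Finset.sum_congr rfl fun k _ => ?_
        show (if n < (k : ℕ) then (PP w k - PP w n).1 else
          if (k : ℕ) < n then -(PP w k - PP w n).1 else 0) = _
        unfold sn
        split_ifs <;> simp
      rw [e4, e1, e2, e3])
  rw [h]
  congr 1
  unfold XP
  ext w
  simp only [mem_filter]
  tauto

theorem two_all (n : ℕ) : {ω | TS n ω}.ncard = (SW (2 * n)).card := by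
  have h := ts_image n (fun _ => True)
  have e1 : {ω | TS n ω ∧ True} = {ω | TS n ω} := by ext; simp
  have e2 : {g : Fin (2 * n + 1) → ℤ × ℤ | IsSAW (2 * n) g ∧ True} =
    {g : Fin (2 * n + 1) → ℤ × ℤ | IsSAW (2 * n) g} := by ext; simp
  rw [e1, e2, card_SW] at h
  exact h

end

end H726.AL.Pair
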