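import Pool.Agent.H726.AL.Corner

/-!
# Pointwise ratios of the area law of self-avoiding polygons
-/

set_option autoImplicit false
set_option linter.unusedVariables false

namespace H726.AL

open Finset Pool.Agent.H976R2 Pool.Agent.H976R2.Lip Pool.Agent.H924P Pool.Agent.H739K
open Pool.Agent.R54.AS
open scoped Classical

noncomputable section

/-- number of polygons of area `a` -/
def cnt (N : ℕ) (a : ℤ) : ℝ := (((KP (2 * N - 1)).filter (fun w => (ar w : ℤ) = a)).card : ℝ)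

theorem cnt_nonneg (N : ℕ) (a : ℤ) : 0 ≤ cnt N a := Nat.cast_nonneg _

/-- the exponent -/
def kp : ℝ := min (H726.EX.kap2 7 1) 1

theorem kp_pos : 0 < kp := lt_min (H726.EX.kap2_pos (by norm_num) one_pos) one_pos

/-- balance of the corners -/
theorem bal (N : ℕ) (hN : 2 ≤ N) {t : ℝ} (ht : 0 ≤ t) :
    (((KP (2 * N - 1)).filter (fun w => t * Real.sqrt ((up w).card + (dn w).card) <
      |1 * ((up w).card : ℝ) - (dn w).card|)).card : ℝ) ≤
      2 * Real.exp 1 * (2 * N - 1 : ℕ) * Real.exp (-(kp * t ^ 2)) *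
        ((KP (2 * N - 1)).card : ℝ) := by
  have hw : (Yc N hN).Wt (fun _ => (1 : ℝ)) 1 := ⟨fun _ _ => zero_le_one, fun _ _ _ _ => by simp⟩
  have h := H726.EX.balance hw one_pos (2 * N - 1) (fun w hw => by
    have h1 := up_dn hN hw
    have h2 := fc_card hw
    have e1 : ((Yc N hN).S w).card = (up w).card := rfl
    have e2 : ((Yc N hN).B w).card = (dn w).card := rfl
    rw [e1, e2]
    omega) ht
  rw [Finset.sum_const, Finset.sum_const, nsmul_eq_mul, nsmul_eq_mul, mul_one, mul_one] at h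
  have e3 : (Yc N hN).X = KP (2 * N - 1) := rfl
  have e4 : (Yc N hN).C = 7 := rfl
  rw [e3, e4] at h
  refine le_trans h ?_
  have h3 : Real.exp (-(H726.EX.kap2 7 1 * t ^ 2)) ≤ Real.exp (-(kp * t ^ 2)) := by
    rw [Real.exp_le_exp]
    have : kp * t ^ 2 ≤ H726.EX.kap2 7 1 * t ^ 2 :=
      mul_le_mul_of_nonneg_right (min_le_left _ _) (by positivity)
    linarith
  gcongr

theorem arith {δ p p' d : ℝ} (h0 : 0 < δ) (h1 : δ ≤ 1 / 2) (hp : 0 ≤ p) (hd : d ≤ δ * p)
    (g1 : (1 - δ) * (p - d) ≤ p') (g2 : (1 - δ) * (p' - d) ≤ p) : |p' - p| ≤ 3 * δ * p := by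
  have e1 : (1 - δ) * d ≤ (1 - δ) * (δ * p) := mul_le_mul_of_nonneg_left hd (by linarith)
  have e3 : 0 ≤ δ * p := by positivity
  rw [abs_le]
  constructor
  · nlinarith
  · -- p' ≤ (1 + 3δ) p
    have e2 : (1 - δ) * p' ≤ p + (1 - δ) * (δ * p) := by linarith
    have e4 : p + (1 - δ) * (δ * p) ≤ (1 - δ) * ((1 + 3 * δ) * p) := by
      have : (1 - δ) * ((1 + 3 * δ) * p) - (p + (1 - δ) * (δ * p)) = δ * p * (1 - 2 * δ) := by
        ring
      have h5 : 0 ≤ δ * p * (1 - 2 * δ) := mul_nonneg e3 (by linarith)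
      linarith
    have e5 : (1 - δ) * p' ≤ (1 - δ) * ((1 + 3 * δ) * p) := e2.trans e4
    have e6 : p' ≤ (1 + 3 * δ) * p := le_of_mul_le_mul_left e5 (by linarith)
    linarith

/-- the ratio for words -/
theorem words : ∃ K c : ℝ, ∃ n₀ : ℕ, 0 < K ∧ 0 < c ∧ ∀ N : ℕ, n₀ ≤ N → 2 ≤ N → ∀ a b : ℤ,
    (b = a + 1 ∨ a = b + 1) →
    Real.exp (-(c * N)) ≤ cnt N a / ((KP (2 * N - 1)).card : ℝ) →
    |cnt N b - cnt N a| ≤ K * Real.sqrt (Real.log (N / (cnt N a / ((KP (2 * N - 1)).card : ℝ))) / N) *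
      cnt N a := by
  obtain ⟨C0, c0, hC0, hc0, hfew⟩ := Fin.few_exp
  have hk := kp_pos
  obtain ⟨k, hkd⟩ : ∃ k : ℝ, k = kp := ⟨_, rfl⟩
  rw [← hkd] at hk
  obtain ⟨κ2, hκ2⟩ : ∃ κ2 : ℝ, κ2 = k / 20480000 := ⟨_, rfl⟩
  have hκ20 : 0 < κ2 := by rw [hκ2]; positivity
  obtain ⟨n₀, hn₀⟩ := exists_nat_ge (16 * C0 / c0 ^ 2 + 49 / κ2 ^ 2)
  refine ⟨4800 * Real.sqrt (8 / k), min κ2 (c0 / 2), n₀, by positivity,
    lt_min hκ20 (by positivity), fun N hN0 hN a b hab hPa => ?_⟩
  obtain ⟨Z, hZ⟩ : ∃ Z : ℝ, Z = ((KP (2 * N - 1)).card : ℝ) := ⟨_, rfl⟩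
  have hZ0 : 0 < Z := by rw [hZ]; exact Fin.card_pos hN
  obtain ⟨m, hm⟩ : ∃ m : ℕ, m = 2 * N - 1 := ⟨_, rfl⟩
  have hNr : (2 : ℝ) ≤ N := by exact_mod_cast hN
  have hmr : (m : ℝ) = 2 * N - 1 := by
    rw [hm, Nat.cast_sub (by omega)]; push_cast; ring
  have hmN : (N : ℝ) ≤ m := by rw [hmr]; linarith
  have hm3 : (3 : ℝ) ≤ m := by rw [hmr]; linarith
  have hn0m : 16 * C0 / c0 ^ 2 + 49 / κ2 ^ 2 ≤ m := by
    have : (n₀ : ℝ) ≤ N := by exact_mod_cast hN0
    linarith
  have hA1 : 16 * C0 / c0 ^ 2 ≤ m := by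
    have : 0 ≤ 49 / κ2 ^ 2 := by positivity
    linarith
  have hA2 : 49 / κ2 ^ 2 ≤ m := by
    have : 0 ≤ 16 * C0 / c0 ^ 2 := by positivity
    linarith
  rw [← hZ] at hPa ⊢
  obtain ⟨P, hP⟩ : ∃ P : ℝ, P = cnt N a / Z := ⟨_, rfl⟩
  rw [← hP] at hPa ⊢
  have hP0 : 0 < P := lt_of_lt_of_le (Real.exp_pos _) hPa
  have hcP : cnt N a = P * Z := by rw [hP]; field_simp
  have hP1 : P ≤ 1 := by
    rw [hP, div_le_one hZ0, hZ]
    unfold cnt
    exact_mod_cast Finset.card_filter_le _ _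
  have hPa1 : Real.exp (-(κ2 * N)) ≤ P := by
    refine le_trans (Real.exp_le_exp.2 ?_) hPa
    have : min κ2 (c0 / 2) * N ≤ κ2 * N := mul_le_mul_of_nonneg_right (min_le_left _ _) (by linarith)
    linarith
  have hPa2 : Real.exp (-(c0 / 2 * N)) ≤ P := by
    refine le_trans (Real.exp_le_exp.2 ?_) hPa
    have : min κ2 (c0 / 2) * N ≤ c0 / 2 * N :=
      mul_le_mul_of_nonneg_right (min_le_right _ _) (by linarith)
    linarith
  obtain ⟨ℓ, hℓ⟩ : ∃ ℓ : ℝ, ℓ = - Real.log P := ⟨_, rfl⟩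
  have hℓ0 : 0 ≤ ℓ := by
    rw [hℓ]
    have := Real.log_nonpos hP0.le hP1
    linarith
  have hℓ1 : ℓ ≤ κ2 * N := by
    rw [hℓ]
    have := Real.log_le_log (Real.exp_pos _) hPa1
    rw [Real.log_exp] at this
    linarith
  -- the logarithm of `4 e m ^ 2`
  obtain ⟨Lg, hLg⟩ : ∃ Lg : ℝ, Lg = Real.log (4 * Real.exp 1 * m ^ 2) := ⟨_, rfl⟩
  have hLg1 : Lg = Real.log 4 + 1 + 2 * Real.log m := by
    rw [hLg, Real.log_mul (by positivity) (by positivity), Real.log_mul (by norm_num)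
      (by positivity), Real.log_exp, Real.log_pow]
    push_cast
    ring
  have hlog4 : Real.log 4 = 2 * Real.log 2 := by
    rw [show (4 : ℝ) = 2 ^ 2 by norm_num, Real.log_pow]; push_cast; ring
  have hl2a := Real.log_two_gt_d9
  have hl2b := Real.log_two_lt_d9
  have hlm0 : 0 ≤ Real.log m := Real.log_nonneg (by linarith)
  have hLg2 : 1 ≤ Lg := by rw [hLg1, hlog4]; linarith
  have hsm : 1 ≤ Real.sqrt m := by
    rw [Real.one_le_sqrt]; linarith
  have hsmm : Real.sqrt m * Real.sqrt m = m := Real.mul_self_sqrt (by linarith)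
  have hLg3 : Lg ≤ 7 * Real.sqrt m := by
    have h1 : Real.log m = 2 * Real.log (Real.sqrt m) := by
      rw [Real.log_sqrt (by linarith)]; ring
    have h2 := Real.log_le_sub_one_of_pos (show 0 < Real.sqrt m by linarith)
    rw [hLg1, hlog4, h1]
    linarith
  have hLg4 : Lg ≤ κ2 * m := by
    have h1 : 7 / κ2 ≤ Real.sqrt m := by
      rw [Real.le_sqrt' (by positivity), div_pow]
      linarith
    rw [div_le_iff₀ hκ20] at h1
    calc Lg ≤ 7 * Real.sqrt m := hLg3
      _ ≤ (Real.sqrt m * κ2) * Real.sqrt m := mul_le_mul_of_nonneg_right h1 (by linarith)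
      _ = κ2 * m := by
        have : (Real.sqrt m * κ2) * Real.sqrt m = κ2 * (Real.sqrt m * Real.sqrt m) := by ring
        rw [this, hsmm]
  -- the threshold
  obtain ⟨t, ht⟩ : ∃ t : ℝ, t = Real.sqrt ((Lg + ℓ) / k) := ⟨_, rfl⟩
  have hk1 : k ≤ 1 := by rw [hkd]; exact min_le_right _ _
  have hts : t ^ 2 = (Lg + ℓ) / k := by rw [ht, Real.sq_sqrt (by positivity)]
  have hkt : k * t ^ 2 = Lg + ℓ := by rw [hts]; field_simp
  have ht1 : 1 ≤ t := by
    rw [ht, Real.one_le_sqrt, le_div_iff₀ hk]; linarith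
  have htm : t ≤ Real.sqrt m / 3200 := by
    have h1 : t ^ 2 ≤ (Real.sqrt m / 3200) ^ 2 := by
      rw [hts, div_pow, Real.sq_sqrt (by linarith), div_le_iff₀ hk]
      have h2 : Lg + ℓ ≤ 2 * (κ2 * m) := by
        have : κ2 * N ≤ κ2 * m := mul_le_mul_of_nonneg_left hmN hκ20.le
        linarith
      refine h2.trans (le_of_eq ?_)
      rw [hκ2]; ring
    exact le_of_sq_le_sq h1 (by positivity)
  have hδ : 32 * t / (1 / 50 * Real.sqrt m) ≤ 1 / 2 := by
    rw [div_le_iff₀ (by positivity)]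
    linarith
  -- the exceptional set
  obtain ⟨D, hD⟩ : ∃ D : Finset (List Dir), D = ((KP m).filter (fun w => t *
      Real.sqrt ((up w).card + (dn w).card) < |1 * ((up w).card : ℝ) - (dn w).card|)) ∪
      fewc m := ⟨_, rfl⟩
  have hDc : (D.card : ℝ) ≤ P * Z / m := by
    have h1 : (D.card : ℝ) ≤ (((KP m).filter (fun w => t *
      Real.sqrt ((up w).card + (dn w).card) < |1 * ((up w).card : ℝ) - (dn w).card|)).card : ℝ) +
      ((fewc m).card : ℝ) := by
      rw [hD]
      exact_mod_cast Finset.card_union_le _ _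
    have h2 := bal N hN (t := t) (by linarith)
    rw [← hm, ← hkd, hkt] at h2
    rw [← hm] at hZ
    rw [← hZ] at h2
    have h3 := hfew m (by omega) (by omega)
    rw [← hZ] at h3
    have h4 : 2 * Real.exp 1 * m * Real.exp (-(Lg + ℓ)) = P / (2 * m) := by
      rw [neg_add, Real.exp_add, hℓ, neg_neg, Real.exp_log hP0, Real.exp_neg, hLg,
        Real.exp_log (by positivity)]
      field_simp
      ring
    rw [h4] at h2
    have h5 : C0 * Real.exp (-(c0 * m)) ≤ P / (2 * m) := by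
      have g1 : Real.exp (-(c0 * m)) = Real.exp (-(c0 / 2 * m)) * Real.exp (-(c0 / 2 * m)) := by
        rw [← Real.exp_add]; ring_nf
      have g2 : Real.exp (-(c0 / 2 * m)) ≤ P := by
        refine le_trans (Real.exp_le_exp.2 ?_) hPa2
        have : c0 / 2 * N ≤ c0 / 2 * m := mul_le_mul_of_nonneg_left hmN (by positivity)
        linarith
      have g3 : C0 * Real.exp (-(c0 / 2 * m)) ≤ 1 / (2 * m) := by
        have g4 := Real.quadratic_le_exp_of_nonneg (show 0 ≤ c0 / 2 * m by positivity)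
        have g5 : 2 * m * C0 ≤ Real.exp (c0 / 2 * m) := by
          have g6 : 2 * m * C0 ≤ (c0 / 2 * m) ^ 2 / 2 := by
            rw [div_le_iff₀ (by positivity)] at hA1
            nlinarith
          have g7 : 0 ≤ c0 / 2 * m := by positivity
          linarith
        rw [Real.exp_neg, le_div_iff₀ (by positivity), mul_assoc, mul_comm, mul_assoc,
          inv_mul_le_iff₀ (Real.exp_pos _)]
        linarith
      calc C0 * Real.exp (-(c0 * m)) = (C0 * Real.exp (-(c0 / 2 * m))) *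
            Real.exp (-(c0 / 2 * m)) := by rw [g1]; ring
        _ ≤ 1 / (2 * m) * P := mul_le_mul g3 g2 (by positivity) (by positivity)
        _ = P / (2 * m) := by ring
    have h6 : C0 * Real.exp (-(c0 * m)) * Z ≤ P / (2 * m) * Z :=
      mul_le_mul_of_nonneg_right h5 hZ0.le
    have h7 : P * Z / m = P / (2 * m) * Z + P / (2 * m) * Z := by
      field_simp
      ring
    linarith
  have hratio : ∀ a' : ℤ, (1 - 32 * t / (1 / 50 * Real.sqrt m)) * (cnt N a' - P * Z / m) ≤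
        cnt N (a' + 1) ∧
      (1 - 32 * t / (1 / 50 * Real.sqrt m)) * (cnt N (a' + 1) - P * Z / m) ≤ cnt N a' := by
    intro a'
    have h := (Yc N hN).ratio (fun w => (ar w : ℤ)) (ar_up N hN) m (by omega) (fun w hw => by
      have h1 := up_dn hN hw
      have h2 := fc_card hw
      have e1 : ((Yc N hN).S w).card = (up w).card := rfl
      have e2 : ((Yc N hN).B w).card = (dn w).card := rfl
      rw [e1, e2]
      omega) (le_refl 7) (1 / 50) t (P * Z / m) (by norm_num) ht1 hδ D hDc (fun w hw hlt => by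
      have h1 := up_dn hN hw
      have e1 : ((Yc N hN).S w).card = (up w).card := rfl
      have e2 : ((Yc N hN).B w).card = (dn w).card := rfl
      rw [e1, e2] at hlt
      have h2 : (((up w).card : ℝ) + (dn w).card) = (fc w).card := by exact_mod_cast h1
      rw [h2] at hlt
      rw [hD, mem_union]
      right
      unfold fewc
      rw [mem_filter]
      refine ⟨?_, by linarith⟩
      have h3 : w ∈ KP (2 * N - 1) := hw
      rw [← hm] at h3
      exact (Finset.mem_filter.mp h3).1) (fun w hw hlt => by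
      rw [hD, mem_union]
      left
      rw [mem_filter]
      have h3 : w ∈ KP (2 * N - 1) := hw
      rw [← hm] at h3
      exact ⟨h3, hlt⟩) a'
    exact h
  obtain ⟨δ, hδd⟩ : ∃ δ : ℝ, δ = 32 * t / (1 / 50 * Real.sqrt m) := ⟨_, rfl⟩
  rw [← hδd] at hδ hratio
  have hδ0 : 0 < δ := by rw [hδd]; positivity
  have hdδ : P * Z / m ≤ δ * (P * Z) := by
    have h1 : 1 / (m : ℝ) ≤ δ := by
      rw [hδd, div_le_div_iff₀ (by positivity) (by positivity)]
      nlinarith
    calc P * Z / m = 1 / m * (P * Z) := by ring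
      _ ≤ δ * (P * Z) := mul_le_mul_of_nonneg_right h1 (by positivity)
  have key : |cnt N b - cnt N a| ≤ 3 * δ * cnt N a := by
    rcases hab with h | h
    · rw [h]
      obtain ⟨g1, g2⟩ := hratio a
      rw [← hcP] at hdδ g1 g2
      exact arith hδ0 hδ (cnt_nonneg N _) hdδ g1 g2
    · rw [h] at hcP ⊢
      obtain ⟨g1, g2⟩ := hratio b
      rw [← hcP] at hdδ g1 g2
      exact arith hδ0 hδ (cnt_nonneg N _) hdδ g2 g1
  refine key.trans ?_
  have hcn : 0 ≤ cnt N a := cnt_nonneg N a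
  apply mul_le_mul_of_nonneg_right _ hcn
  -- final comparison
  have hlogN : Real.log (N / P) = Real.log N + ℓ := by
    rw [Real.log_div (by positivity) hP0.ne', hℓ]; ring
  have hlN : Real.log 2 ≤ Real.log N := Real.log_le_log (by norm_num) hNr
  have hlm : Real.log m ≤ Real.log 2 + Real.log N := by
    rw [← Real.log_mul (by norm_num) (by positivity)]
    exact Real.log_le_log (by positivity) (by rw [hmr]; linarith)
  have hLg5 : Lg ≤ 8 * Real.log N := by
    rw [hLg1, hlog4]; linarith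
  rw [hlogN]
  have h1 : t / Real.sqrt m ≤ Real.sqrt (8 / k) * Real.sqrt ((Real.log N + ℓ) / N) := by
    rw [ht, ← Real.sqrt_div (by positivity), ← Real.sqrt_mul (by positivity)]
    apply Real.sqrt_le_sqrt
    rw [div_div, div_mul_div_comm]
    apply div_le_div₀ (by positivity) (by linarith) (by positivity)
    exact mul_le_mul_of_nonneg_left hmN hk.le
  calc 3 * δ = 4800 * (t / Real.sqrt m) := by
        rw [hδd]; field_simp; ring
    _ ≤ 4800 * (Real.sqrt (8 / k) * Real.sqrt ((Real.log N + ℓ) / N)) := by linarith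
    _ = _ := by ring

end

end H726.AL
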